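import Pool.Agent.Helper54.T5.PMAXst

set_option autoImplicit false

/-!
Module DICH of the T5 plan: the two types of real maximisers.
-/

namespace Pool.Agent.Helper54.T5

open Finset Complex Pool.Agent.Helper46.T5 Pool.Agent.Helper15.T4
open scoped ComplexConjugate

/-! ### the diagonal value in the second case -/

section diag

variable {V : Type*} [NormedAddCommGroup V] [InnerProductSpace ℂ V]
  {Φ : V →ₗ[ℂ] V →ₗ[ℂ] V →ₗ[ℂ] ℂ}

theorem Sym.polar (h : Sym Φ) (a b c : V) :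
    24 * Φ a b c = Φ (a + b + c) (a + b + c) (a + b + c) - Φ (a + b - c) (a + b - c) (a + b - c) -
      Φ (a - b + c) (a - b + c) (a - b + c) + Φ (a - b - c) (a - b - c) (a - b - c) := by
  simp only [map_add, map_sub, LinearMap.add_apply, LinearMap.sub_apply,
    h.s12 b a, h.s12 c a, h.s12 c b]
  simp only [h.s23 _ b a, h.s23 _ c a, h.s23 _ c b, h.s12 b a, h.s12 c a, h.s12 c b]
  ring

theorem norm_three {a b c : V} (ha : inner ℂ a a = (1 / 3 : ℂ)) (hb : inner ℂ b b = (1 / 3 : ℂ))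
    (hc : inner ℂ c c = (1 / 3 : ℂ)) (hab : inner ℂ a b = (0 : ℂ)) (hba : inner ℂ b a = (0 : ℂ))
    (hac : inner ℂ a c = (0 : ℂ)) (hca : inner ℂ c a = (0 : ℂ)) (hbc : inner ℂ b c = (0 : ℂ))
    (hcb : inner ℂ c b = (0 : ℂ)) :
    ‖a + b + c‖ = 1 ∧ ‖a + b - c‖ = 1 ∧ ‖a - b + c‖ = 1 ∧ ‖a - b - c‖ = 1 := by
  have key : ∀ u : V, inner ℂ u u = (1 : ℂ) → ‖u‖ = 1 := by
    intro u hu
    have h1 : ‖u‖ ^ 2 = 1 := by
      rw [@norm_sq_eq_re_inner ℂ, hu]
      simp
    nlinarith [norm_nonneg u]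
  refine ⟨key _ ?_, key _ ?_, key _ ?_, key _ ?_⟩ <;>
  · simp only [inner_add_left, inner_add_right, inner_sub_left, inner_sub_right, ha, hb, hc, hab,
      hba, hac, hca, hbc, hcb]
    norm_num

theorem Sym.diag (h : Sym Φ) (M : Fin 3 → Fin 3 → V)
    (hM : ∀ i j k l, inner ℂ (M i j) (M k l) = if i = k ∧ j = l then (1 / 3 : ℂ) else 0)
    (s : ℂ) (hs : ‖s‖ = 1) (hD : D Φ (M 0) (M 1) (M 2) = s) :
    Φ (M 0 0 + M 1 1 + M 2 2) (M 0 0 + M 1 1 + M 2 2) (M 0 0 + M 1 1 + M 2 2) = s := by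
  have hPb : ∀ u : V, ‖u‖ = 1 → ‖Φ u u u‖ ≤ 1 := fun u hu => by
    have := h.le u
    rwa [hu, one_pow] at this
  -- bound of the real part of `conj s * z`
  have hre : ∀ z : ℂ, ‖z‖ ≤ 1 → (conj s * z).re ≤ 1 ∧ -1 ≤ (conj s * z).re := by
    intro z hz
    have h1 : ‖conj s * z‖ ≤ 1 := by
      rw [norm_mul, RCLike.norm_conj, hs, one_mul]; exact hz
    have h2 := Complex.abs_re_le_norm (conj s * z)
    exact ⟨(le_abs_self _).trans (h2.trans h1), by
      have := neg_abs_le (conj s * z).re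
      linarith⟩
  have key : ∀ j₀ j₁ j₂ : Fin 3, j₀ ≠ j₁ → j₀ ≠ j₂ → j₁ ≠ j₂ →
      (conj s * (24 * Φ (M 0 j₀) (M 1 j₁) (M 2 j₂))).re ≤ 4 ∧
      -4 ≤ (conj s * (24 * Φ (M 0 j₀) (M 1 j₁) (M 2 j₂))).re ∧
      (4 ≤ (conj s * (24 * Φ (M 0 j₀) (M 1 j₁) (M 2 j₂))).re →
        1 ≤ (conj s * Φ (M 0 j₀ + M 1 j₁ + M 2 j₂) (M 0 j₀ + M 1 j₁ + M 2 j₂)
          (M 0 j₀ + M 1 j₁ + M 2 j₂)).re) := by
    intro j₀ j₁ j₂ _ _ _
    obtain ⟨n1, n2, n3, n4⟩ := norm_three (a := M 0 j₀) (b := M 1 j₁) (c := M 2 j₂)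
      (by rw [hM]; simp) (by rw [hM]; simp) (by rw [hM]; simp) (by rw [hM]; simp)
      (by rw [hM]; simp) (by rw [hM]; simp) (by rw [hM]; simp) (by rw [hM]; simp)
      (by rw [hM]; simp)
    have b1 := hre _ (hPb _ n1)
    have b2 := hre _ (hPb _ n2)
    have b3 := hre _ (hPb _ n3)
    have b4 := hre _ (hPb _ n4)
    rw [h.polar]
    simp only [mul_add, mul_sub, Complex.add_re, Complex.sub_re] at b1 b2 b3 b4 ⊢
    refine ⟨by linarith, by linarith, fun h4 => by linarith⟩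
  have k012 := key 0 1 2 (by decide) (by decide) (by decide)
  have k021 := key 0 2 1 (by decide) (by decide) (by decide)
  have k120 := key 1 2 0 (by decide) (by decide) (by decide)
  have k102 := key 1 0 2 (by decide) (by decide) (by decide)
  have k201 := key 2 0 1 (by decide) (by decide) (by decide)
  have k210 := key 2 1 0 (by decide) (by decide) (by decide)
  have hss : conj s * s = 1 := by
    rw [mul_comm, Complex.mul_conj, Complex.normSq_eq_norm_sq, hs]; norm_num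
  have hsum : (conj s * (24 * D Φ (M 0) (M 1) (M 2))).re = 24 := by
    rw [hD, mul_left_comm, hss]; norm_num
  have hsum' : (conj s * (24 * Φ (M 0 0) (M 1 1) (M 2 2))).re -
      (conj s * (24 * Φ (M 0 0) (M 1 2) (M 2 1))).re +
      (conj s * (24 * Φ (M 0 1) (M 1 2) (M 2 0))).re -
      (conj s * (24 * Φ (M 0 1) (M 1 0) (M 2 2))).re +
      (conj s * (24 * Φ (M 0 2) (M 1 0) (M 2 1))).re -
      (conj s * (24 * Φ (M 0 2) (M 1 1) (M 2 0))).re = 24 := by
    rw [← hsum, D]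
    simp only [← Complex.add_re, ← Complex.sub_re]
    congr 1
    ring
  have h4 : 4 ≤ (conj s * (24 * Φ (M 0 0) (M 1 1) (M 2 2))).re := by
    linarith [k021.2.1, k120.1, k102.2.1, k201.1, k210.2.1]
  have h1 := k012.2.2 h4
  obtain ⟨n1, -, -, -⟩ := norm_three (a := M 0 0) (b := M 1 1) (c := M 2 2)
      (by rw [hM]; simp) (by rw [hM]; simp) (by rw [hM]; simp) (by rw [hM]; simp)
      (by rw [hM]; simp) (by rw [hM]; simp) (by rw [hM]; simp) (by rw [hM]; simp)
      (by rw [hM]; simp)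
  set z := Φ (M 0 0 + M 1 1 + M 2 2) (M 0 0 + M 1 1 + M 2 2) (M 0 0 + M 1 1 + M 2 2) with hz
  have hzn : ‖z‖ ≤ 1 := hPb _ n1
  have hw : conj s * z = 1 := by
    have hn : ‖conj s * z‖ ≤ 1 := by
      rw [norm_mul, RCLike.norm_conj, hs, one_mul]; exact hzn
    have hsq : (conj s * z).re ^ 2 + (conj s * z).im ^ 2 ≤ 1 := by
      have h5 := Complex.sq_norm (conj s * z)
      rw [Complex.normSq_apply] at h5
      nlinarith [norm_nonneg (conj s * z)]
    have hre1 : (conj s * z).re = 1 := by nlinarith [sq_nonneg (conj s * z).im]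
    have him : (conj s * z).im = 0 := by
      rw [hre1] at hsq
      nlinarith [sq_nonneg (conj s * z).im]
    apply Complex.ext
    · rw [hre1]; simp
    · rw [him]; simp
  calc z = (s * conj s) * z := by rw [mul_comm s, hss, one_mul]
    _ = s * (conj s * z) := by ring
    _ = s := by rw [hw, mul_one]

end diag

/-! ### the equality case as a hypothesis -/

/-- the statement of the equality case of Theorem A -/
def EQH : Prop := ∀ (V : Type) [NormedAddCommGroup V] [InnerProductSpace ℂ V]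
  [FiniteDimensional ℂ V] (Φ : V →ₗ[ℂ] V →ₗ[ℂ] V →ₗ[ℂ] ℂ), Sym Φ → ∀ M : Fin 3 → Fin 3 → V,
  ∑ i, ∑ j, ‖M i j‖ ^ 2 = 3 → ‖D Φ (M 0) (M 1) (M 2)‖ = 1 →
  (∃ (U : Matrix (Fin 3) (Fin 3) ℂ) (e : V), U ∈ Matrix.unitaryGroup (Fin 3) ℂ ∧ ‖e‖ = 1 ∧
    ‖Φ e e e‖ = 1 ∧ ∀ i j, M i j = U i j • e) ∨
  (∀ i j k l, inner ℂ (M i j) (M k l) = if i = k ∧ j = l then (1 / 3 : ℂ) else 0)

/-! ### slices of vectors on `Fin (m + 2)` -/

/-- the first label apart -/
def psi (n : ℕ) : Fin (n + 1) ≃ Unit ⊕ Fin n where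
  toFun := Fin.cons (Sum.inl ()) (fun i => Sum.inr i)
  invFun := Sum.elim (fun _ => 0) Fin.succ
  left_inv := by
    intro i
    refine Fin.cases ?_ (fun i => ?_) i
    · simp
    · simp
  right_inv := by
    rintro (u | i)
    · simp
    · simp

/-- the first two labels apart -/
def psi2 (m : ℕ) : Fin (m + 2) ≃ Unit ⊕ (Unit ⊕ Fin m) :=
  (psi (m + 1)).trans (Equiv.sumCongr (Equiv.refl Unit) (psi m))

theorem elim_psi2 (m : ℕ) (i j : Fin 3) (a : Fin m → Fin 3) :
    (Sum.elim (fun _ : Unit => i) (Sum.elim (fun _ : Unit => j) a)) ∘ (psi2 m) =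
      (Fin.cons i (Fin.cons j a : Fin (m + 1) → Fin 3) : Fin (m + 2) → Fin 3) := by
  funext t
  refine Fin.cases ?_ (fun t => ?_) t
  · simp [psi2, psi]
  · refine Fin.cases ?_ (fun t => ?_) t
    · simp [psi2, psi]
    · simp [psi2, psi]

theorem s2_eq_blk {R : Type} {m : ℕ} (x : (Fin (m + 2) → Fin 3) → R) (i j : Fin 3) :
    s2 (fun a => x (a ∘ psi2 m)) i j = blk x i j := by
  funext a
  change x _ = x _
  rw [← elim_psi2]

theorem sum_blk {R R' : Type} [AddCommMonoid R'] {m : ℕ} (f : R → R')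
    (x : (Fin (m + 2) → Fin 3) → R) :
    ∑ a, f (x a) = ∑ i : Fin 3, ∑ j : Fin 3, ∑ b : Fin m → Fin 3, f (blk x i j b) := by
  have h1 : ∑ a, f (x a) = ∑ a : Unit ⊕ (Unit ⊕ Fin m) → Fin 3, f (x (a ∘ psi2 m)) :=
    (Equiv.sum_comp (Equiv.arrowCongr (psi2 m).symm (Equiv.refl (Fin 3))) (fun a => f (x a))).symm
  rw [h1, sum_slices f (fun a => x (a ∘ psi2 m))]
  refine sum_congr rfl fun i _ => sum_congr rfl fun j _ => ?_
  rw [s2_eq_blk]

theorem TJ_blk {R : Type} [CommRing R] {m : ℕ} (hm : Even m) (x : (Fin (m + 2) → Fin 3) → R) :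
    TJ (Fin (m + 2)) x x x = 6 *
      (TJ (Fin m) (blk x 0 0) (blk x 1 1) (blk x 2 2) -
        TJ (Fin m) (blk x 0 0) (blk x 1 2) (blk x 2 1) +
        TJ (Fin m) (blk x 0 1) (blk x 1 2) (blk x 2 0) -
        TJ (Fin m) (blk x 0 1) (blk x 1 0) (blk x 2 2) +
        TJ (Fin m) (blk x 0 2) (blk x 1 0) (blk x 2 1) -
        TJ (Fin m) (blk x 0 2) (blk x 1 1) (blk x 2 0)) := by
  rw [TJ_equiv (psi2 m), TJ_two (by simpa using hm)]
  simp only [s2_eq_blk]

/-- complexification of a real tensor -/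
noncomputable def cx {m : ℕ} (x : (Fin m → Fin 3) → ℝ) : VJ (Fin m) :=
  WithLp.toLp 2 (fun a => (x a : ℂ))

theorem TJ_cast {J : Type} [Fintype J] [DecidableEq J] (x y z : (J → Fin 3) → ℝ) :
    TJ J (fun a => (x a : ℂ)) (fun a => (y a : ℂ)) (fun a => (z a : ℂ)) =
      ((TJ J x y z : ℝ) : ℂ) := by
  simp only [TJ]
  push_cast
  rfl

theorem TL_cx {m : ℕ} (c : ℝ) (x y z : (Fin m → Fin 3) → ℝ) :
    TL (Fin m) c (cx x) (cx y) (cx z) = ((c⁻¹ * TJ (Fin m) x y z : ℝ) : ℂ) := by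
  rw [TL_apply]
  simp only [cx]
  rw [TJ_cast]
  push_cast
  rfl

theorem inner_cx {m : ℕ} (x y : (Fin m → Fin 3) → ℝ) :
    inner ℂ (cx x) (cx y) = ((ip x y : ℝ) : ℂ) := by
  simp only [cx, ip, PiLp.inner_apply]
  push_cast
  refine sum_congr rfl fun a _ => ?_
  simp [mul_comm]

theorem norm_cx_sq {m : ℕ} (x : (Fin m → Fin 3) → ℝ) : ‖cx x‖ ^ 2 = nsq x := by
  rw [EuclideanSpace.norm_sq_eq, nsq]
  refine sum_congr rfl fun a _ => ?_
  simp [cx]

theorem cx_smul {m : ℕ} (t : ℝ) (x : (Fin m → Fin 3) → ℝ) : cx (t • x) = (t : ℂ) • cx x := by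
  ext a
  simp [cx]

theorem cx_sum {m : ℕ} {ι : Type} (s : Finset ι) (x : ι → (Fin m → Fin 3) → ℝ) :
    cx (fun a => ∑ i ∈ s, x i a) = ∑ i ∈ s, cx (x i) := by
  ext a
  simp [cx]

theorem sqrt3_sq : Real.sqrt 3 * Real.sqrt 3 = 3 := Real.mul_self_sqrt (by norm_num)

/-- the normalised complex blocks -/
noncomputable def MM {m : ℕ} (x : (Fin (m + 2) → Fin 3) → ℝ) (i j : Fin 3) : VJ (Fin m) :=
  cx (Real.sqrt 3 • blk x i j)

theorem sum_norm_MM {m : ℕ} (x : (Fin (m + 2) → Fin 3) → ℝ) :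
    ∑ i, ∑ j, ‖MM x i j‖ ^ 2 = 3 * nsq x := by
  rw [nsq, sum_blk (fun t : ℝ => t ^ 2) x, mul_sum]
  refine sum_congr rfl fun i _ => ?_
  rw [mul_sum]
  refine sum_congr rfl fun j _ => ?_
  rw [MM, norm_cx_sq, nsq, mul_sum]
  refine sum_congr rfl fun a _ => ?_
  rw [Pi.smul_apply, smul_eq_mul, mul_pow, Real.sq_sqrt (by norm_num)]

theorem D_MM {m : ℕ} (hm : Even m) (c : ℝ) (x : (Fin (m + 2) → Fin 3) → ℝ) :
    D (TL (Fin m) c) (MM x 0) (MM x 1) (MM x 2) =
      ((c⁻¹ * qq⁻¹ * TJ (Fin (m + 2)) x x x : ℝ) : ℂ) := by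
  have hq : qq⁻¹ = Real.sqrt 3 / 2 := by rw [qq, inv_div]
  rw [TJ_blk hm, hq, D]
  simp only [MM, TL_cx, TJ_smul1, TJ_smul2, TJ_smul3]
  have h3 : (Real.sqrt 3) * (Real.sqrt 3) = 3 := sqrt3_sq
  push_cast
  have h3' : ((Real.sqrt 3 : ℝ) : ℂ) * ((Real.sqrt 3 : ℝ) : ℂ) = 3 := by exact_mod_cast h3
  have h33 : ((Real.sqrt 3 : ℝ) : ℂ) ^ 3 = 3 * ((Real.sqrt 3 : ℝ) : ℂ) := by
    rw [pow_succ, pow_two, h3']
  ring_nf
  rw [h33]
  ring

theorem cx_xO {m : ℕ} (x : (Fin (m + 2) → Fin 3) → ℝ) (O : M3) :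
    cx (xO x O) = ∑ i, ∑ j, ((O i j : ℝ) : ℂ) • MM x i j := by
  ext a
  simp only [cx, xO, MM, PiLp.toLp_apply, WithLp.ofLp_sum, Finset.sum_apply, PiLp.smul_apply,
    Pi.smul_apply, smul_eq_mul]
  push_cast
  rw [mul_sum]
  refine sum_congr rfl fun i _ => ?_
  rw [mul_sum]
  refine sum_congr rfl fun j _ => ?_
  ring

theorem dich (hEQ : EQH) : ST_DICH := by
  intro k x hx hT
  have hc : Fintype.card (Fin (2 * k)) = 2 * k := Fintype.card_fin _
  have hS : Sym (TL (Fin (2 * k)) (qq ^ k)) := sym_TL hc (norm_TJ_sq_le k _ hc)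
  have hq0 : 0 < qq := qq_pos
  have hc0 : 0 < qq ^ k := pow_pos hq0 k
  set s : ℝ := (qq ^ k)⁻¹ * qq⁻¹ * TJ (Fin (2 * k + 2)) x x x with hs
  have hD : D (TL (Fin (2 * k)) (qq ^ k)) (MM x 0) (MM x 1) (MM x 2) = (s : ℂ) :=
    D_MM ⟨k, by ring⟩ _ x
  have hsabs : |s| = 1 := by
    rw [hs, abs_mul, abs_mul, hT, abs_inv, abs_inv, abs_of_pos hc0, abs_of_pos hq0, pow_succ]
    field_simp
  have hs1 : s = 1 ∨ s = -1 := by
    rcases abs_cases s with ⟨h1, -⟩ | ⟨h1, -⟩
    · left; rw [← h1, hsabs]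
    · right; linarith
  have hsum : ∑ i, ∑ j, ‖MM x i j‖ ^ 2 = 3 := by rw [sum_norm_MM, hx, mul_one]
  have hsn : ‖(s : ℂ)‖ = 1 := by rw [Complex.norm_real, Real.norm_eq_abs, hsabs]
  rcases hEQ (VJ (Fin (2 * k))) (TL (Fin (2 * k)) (qq ^ k)) hS (MM x) hsum (by rw [hD, hsn]) with
    ⟨U, e₀, hU, he₀, hΦ, hMU⟩ | hM
  · left
    -- a nonzero entry of `U`
    have hUU : U * star U = 1 := Matrix.mem_unitaryGroup_iff.1 hU
    have hrow : ∀ i l, ∑ j, U i j * conj (U l j) = if i = l then 1 else 0 := by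
      intro i l
      have := congrFun (congrFun hUU i) l
      rw [Matrix.mul_apply, Matrix.one_apply] at this
      simpa [Matrix.star_apply] using this
    obtain ⟨j₀, hj₀⟩ : ∃ j, U 0 j ≠ 0 := by
      by_contra hcon
      push Not at hcon
      have := hrow 0 0
      simp [hcon] at this
    set n : ℝ := ‖U 0 j₀‖ with hn
    have hn0 : 0 < n := norm_pos_iff.2 hj₀
    set e : (Fin (2 * k) → Fin 3) → ℝ := n⁻¹ • (Real.sqrt 3 • blk x 0 j₀) with he
    obtain ⟨ω, hω⟩ : ∃ ω : ℂ, ω = U 0 j₀ * ((n⁻¹ : ℝ) : ℂ) := ⟨_, rfl⟩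
    have hωn : ‖ω‖ = 1 := by
      rw [hω, norm_mul, Complex.norm_real, Real.norm_eq_abs, abs_of_pos (inv_pos.2 hn0), ← hn,
        mul_inv_cancel₀ hn0.ne']
    have hωω : ω * conj ω = 1 := by
      rw [Complex.mul_conj, Complex.normSq_eq_norm_sq, hωn]; norm_num
    have hce : cx e = ω • e₀ := by
      rw [he, cx_smul]
      change ((n⁻¹ : ℝ) : ℂ) • MM x 0 j₀ = _
      rw [hMU, smul_smul, hω, mul_comm (U 0 j₀)]
    have hne : nsq e = 1 := by
      rw [← norm_cx_sq, hce, norm_smul, hωn, he₀]; norm_num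
    have he₀' : e₀ = conj ω • cx e := by
      rw [hce, smul_smul, mul_comm (conj ω) ω, hωω, one_smul]
    have hMW : ∀ i j, MM x i j = (U i j * conj ω) • cx e := by
      intro i j
      rw [hMU, mul_smul, ← he₀']
    obtain ⟨a₀, ha₀⟩ : ∃ a, e a ≠ 0 := by
      by_contra hcon
      push Not at hcon
      rw [nsq] at hne
      simp [hcon] at hne
    have hcoord : ∀ i j a, ((Real.sqrt 3 * blk x i j a : ℝ) : ℂ) = U i j * conj ω * (e a : ℂ) := by
      intro i j a
      have := congrArg (fun v : VJ (Fin (2 * k)) => v.ofLp a) (hMW i j)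
      simpa [MM, cx] using this
    set O : M3 := fun i j => Real.sqrt 3 * blk x i j a₀ / e a₀ with hO
    have hW : ∀ i j, U i j * conj ω = ((O i j : ℝ) : ℂ) := by
      intro i j
      have h1 := hcoord i j a₀
      have h2 : ((e a₀ : ℝ) : ℂ) ≠ 0 := by exact_mod_cast ha₀
      rw [hO]
      push_cast
      rw [eq_div_iff h2, ← h1]
      push_cast
      rfl
    refine ⟨O, e, ?_, hne, ?_, ?_⟩
    · ext i l
      rw [Matrix.mul_apply, Matrix.one_apply]
      simp only [Matrix.transpose_apply]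
      have h1 : ((∑ j, O i j * O l j : ℝ) : ℂ) = ∑ j, U i j * conj (U l j) := by
        push_cast
        refine sum_congr rfl fun j _ => ?_
        have h2 : ((O l j : ℝ) : ℂ) = conj ((O l j : ℝ) : ℂ) := (Complex.conj_ofReal _).symm
        rw [h2, ← hW, ← hW, map_mul, Complex.conj_conj]
        calc _ = U i j * conj (U l j) * (ω * conj ω) := by ring
          _ = _ := by rw [hωω, mul_one]
      rw [hrow] at h1
      by_cases hil : i = l
      · rw [if_pos hil] at h1 ⊢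
        exact_mod_cast h1
      · rw [if_neg hil] at h1 ⊢
        exact_mod_cast h1
    · have h1 : TL (Fin (2 * k)) (qq ^ k) (cx e) (cx e) (cx e) =
          ω ^ 3 * TL (Fin (2 * k)) (qq ^ k) e₀ e₀ e₀ := by
        rw [hce]
        simp only [map_smul, LinearMap.smul_apply, smul_eq_mul]
        ring
      have h2 : ‖TL (Fin (2 * k)) (qq ^ k) (cx e) (cx e) (cx e)‖ = 1 := by
        rw [h1, norm_mul, norm_pow, hωn, hΦ]; norm_num
      rw [TL_cx, Complex.norm_real, Real.norm_eq_abs, abs_mul, abs_inv, abs_of_pos hc0,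
        inv_mul_eq_one₀ hc0.ne'] at h2
      exact h2.symm
    · intro i j a
      have h1 := hcoord i j a
      rw [hW] at h1
      have h2 : Real.sqrt 3 * blk x i j a = O i j * e a := by exact_mod_cast h1
      have h3 : Real.sqrt 3 ≠ 0 := by positivity
      field_simp
      linarith
  · right
    refine ⟨s, hs1, ?_, ?_⟩
    · intro O hO
      obtain ⟨hOO, hdet⟩ := hO
      have hOO' : ∀ j l, ∑ p, O j p * O l p = if j = l then 1 else 0 := by
        intro j l
        have := congrFun (congrFun hOO j) l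
        rw [Matrix.mul_apply, Matrix.one_apply] at this
        simpa [Matrix.transpose_apply] using this
      set Oc : Matrix (Fin 3) (Fin 3) ℂ := O.map (fun t : ℝ => (t : ℂ)) with hOc
      have hdetc : Oc.det = 1 := by
        have h1 : Oc = (Complex.ofRealHom : ℝ →+* ℂ).mapMatrix O := rfl
        rw [h1, ← RingHom.map_det, hdet, map_one]
      set M' : Fin 3 → Fin 3 → VJ (Fin (2 * k)) := fun i => mix Oc (MM x i) with hM'
      have hMM' : ∀ i j p q, inner ℂ (M' i j) (M' p q) =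
          if i = p ∧ j = q then (1 / 3 : ℂ) else 0 := by
        intro i j p q
        simp only [hM', mix, sum_inner, inner_sum, inner_smul_left, inner_smul_right, hM, hOc,
          Matrix.map_apply, Complex.conj_ofReal]
        by_cases hip : i = p
        · simp only [hip, true_and]
          have h2 := hOO' j q
          have h3 : ((∑ t, O j t * O q t : ℝ) : ℂ) * (1 / 3) =
              if j = q then (1 / 3 : ℂ) else 0 := by
            rw [h2]
            by_cases hjq : j = q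
            · simp [hjq]
            · simp [hjq]
          rw [← h3]
          push_cast
          rw [Finset.sum_mul]
          refine sum_congr rfl fun t _ => ?_
          rw [Finset.sum_eq_single t]
          · simp only [if_true]
            ring
          · intro u _ hu
            rw [if_neg hu, mul_zero]
          · simp
        · simp [hip]
      have hD' : D (TL (Fin (2 * k)) (qq ^ k)) (M' 0) (M' 1) (M' 2) = (s : ℂ) := by
        simp only [hM']
        rw [D_mix, hdetc, one_mul, hD]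
      have hdiag := hS.diag M' hMM' (s : ℂ) hsn hD'
      have hsumM : M' 0 0 + M' 1 1 + M' 2 2 = cx (xO x O) := by
        rw [cx_xO]
        simp only [hM', mix, hOc, Matrix.map_apply, Fin.sum_univ_three]
      rw [hsumM, TL_cx] at hdiag
      have h4 : (qq ^ k)⁻¹ * TJ (Fin (2 * k)) (xO x O) (xO x O) (xO x O) = s := by
        exact_mod_cast hdiag
      rw [← h4]
      field_simp
    · intro O O'
      have h1 : ((ip (xO x O) (xO x O') : ℝ) : ℂ) =
          (((O.transpose * O').trace / 3 : ℝ) : ℂ) := by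
        rw [← inner_cx, cx_xO, cx_xO]
        simp only [sum_inner, inner_sum, inner_smul_left, inner_smul_right, hM,
          Complex.conj_ofReal]
        simp only [Matrix.trace, Matrix.diag_apply, Matrix.mul_apply, Matrix.transpose_apply]
        simp [Fin.sum_univ_three]
        ring
      exact_mod_cast h1

end Pool.Agent.Helper54.T5
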