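import Pool.Agent.Helper54.T5.DICH
import Pool.Agent.Helper53.T5.EqC

set_option autoImplicit false

/-!
Module DICH of the T5 plan, with the equality case of helper53.
-/

namespace Pool.Agent.Helper54.T5

open Finset Complex Pool.Agent.Helper46.T5 Pool.Agent.Helper15.T4

theorem eqH : EQH := by
  intro V _ _ _ Φ hΦ M hs hd
  have hI : Pool.Agent.Helper76.T5.IsCub Φ := ⟨hΦ.s12, hΦ.s23, hΦ.le⟩
  have hdt : Pool.Agent.Helper76.T5.dtf Φ (M 0) (M 1) (M 2) = D Φ (M 0) (M 1) (M 2) := by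
    unfold Pool.Agent.Helper76.T5.dtf D
    ring
  rcases Pool.Agent.Helper53.T5.eqA hI M hs (by rw [hdt]; exact hd) with ⟨U, e, hU, he, hΦe, hM⟩ | h
  · exact Or.inl ⟨U, e, by
      rw [Matrix.mem_unitaryGroup_iff']
      exact hU, he, hΦe, hM⟩
  · exact Or.inr h

theorem st_DICH : ST_DICH := dich eqH

end Pool.Agent.Helper54.T5
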