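import Mathlib

/-!
Theorem A of the text `lecc_helper46.md`: a symmetric trilinear form `Φ` on a complex inner product
space with `‖Φ x x x‖ ≤ ‖x‖ ^ 3` satisfies
`‖∑ sgn s Φ (x s0) (y s1) (z s2)‖ ≤ ‖X‖ ‖Y‖ ‖Z‖` for triples `X, Y, Z` of vectors.
-/

namespace Pool.Agent.Helper54.T5

open Complex InnerProductSpace ComplexConjugate

variable {V : Type*} [NormedAddCommGroup V] [InnerProductSpace ℂ V]

/-- symmetric trilinear form with cubes bounded by one -/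
structure Sym (Φ : V →ₗ[ℂ] V →ₗ[ℂ] V →ₗ[ℂ] ℂ) : Prop where
  s12 : ∀ x y z, Φ x y z = Φ y x z
  s23 : ∀ x y z, Φ x y z = Φ x z y
  le : ∀ x, ‖Φ x x x‖ ≤ ‖x‖ ^ 3

variable {Φ : V →ₗ[ℂ] V →ₗ[ℂ] V →ₗ[ℂ] ℂ}

theorem Sym.cube (h : Sym Φ) (z y : V) :
    Φ (z + y) (z + y) (z + y) + Φ (z - y) (z - y) (z - y) = 2 * Φ z z z + 6 * Φ z y y := by
  have e1 : Φ y z y = Φ z y y := h.s12 _ _ _
  have e2 : Φ y y z = Φ z y y := by rw [h.s23, h.s12]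
  simp only [map_add, map_sub, LinearMap.add_apply, LinearMap.sub_apply, e1, e2]
  ring

theorem norm_pm (z y : V) (hz : ‖z‖ = 1) (t R : ℝ) (ht : ‖y‖ = t) (hR : 0 ≤ R)
    (hRt : R ^ 2 = 1 + t ^ 2) (hre : ((inner ℂ z y)).re = 0) : ‖z + y‖ = R ∧ ‖z - y‖ = R := by
  constructor
  · have h1 : ‖z + y‖ ^ 2 = R ^ 2 := by
      rw [@norm_add_sq ℂ, hz, ht, hRt]
      simp [hre]
    exact (sq_eq_sq₀ (norm_nonneg _) hR).1 h1
  · have h1 : ‖z - y‖ ^ 2 = R ^ 2 := by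
      rw [@norm_sub_sq ℂ, hz, ht, hRt]
      simp [hre]
    exact (sq_eq_sq₀ (norm_nonneg _) hR).1 h1

theorem Sym.pm (h : Sym Φ) (z y : V) (hz : ‖z‖ = 1) (t R : ℝ) (ht : ‖y‖ = t) (hR : 0 ≤ R)
    (hRt : R ^ 2 = 1 + t ^ 2) (hre : ((inner ℂ z y)).re = 0) :
    ‖Φ z z z + 3 * Φ z y y‖ ≤ R ^ 3 := by
  obtain ⟨h1, h2⟩ := norm_pm z y hz t R ht hR hRt hre
  have h3 := h.le (z + y)
  have h4 := h.le (z - y)
  rw [h1] at h3
  rw [h2] at h4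
  have h5 : ‖2 * (Φ z z z + 3 * Φ z y y)‖ ≤ 2 * R ^ 3 := by
    have : 2 * (Φ z z z + 3 * Φ z y y) = Φ (z + y) (z + y) (z + y) + Φ (z - y) (z - y) (z - y) := by
      rw [h.cube]; ring
    rw [this]
    calc _ ≤ _ := norm_add_le _ _
      _ ≤ _ := by linarith
  rw [norm_mul] at h5
  simp only [Complex.norm_ofNat] at h5
  linarith

/-- a phase making the real part of `η c` vanish -/
theorem exists_phase_re_zero (c : ℂ) : ∃ η : ℂ, ‖η‖ = 1 ∧ (η * c).re = 0 := by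
  by_cases hc : c = 0
  · exact ⟨1, by simp, by simp [hc]⟩
  · have hn : (‖c‖ : ℂ) ≠ 0 := by simpa using hc
    refine ⟨I * (conj c / ‖c‖), ?_, ?_⟩
    · simp [hc]
    · have : I * (conj c / ‖c‖) * c = I * (‖c‖ : ℂ) := by
        field_simp
        rw [mul_comm (conj c) c, Complex.mul_conj, Complex.normSq_eq_norm_sq]
        push_cast
        ring
      rw [this]
      simp

theorem Sym.H1 (h : Sym Φ) (z e : V) (hz : ‖z‖ = 1) (he : ‖e‖ = 1) (t R : ℝ) (ht : 0 ≤ t)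
    (hR : 0 ≤ R) (hRt : R ^ 2 = 1 + t ^ 2) : 3 * t ^ 2 * ‖Φ z e e‖ - ‖Φ z z z‖ ≤ R ^ 3 := by
  obtain ⟨η, hη, hre⟩ := exists_phase_re_zero (inner ℂ z e)
  have h1 := h.pm z (((t : ℂ) * η) • e) hz t R (by
      rw [norm_smul, norm_mul, hη, he]; simp [abs_of_nonneg ht]) hR hRt (by
      rw [inner_smul_right, mul_assoc, Complex.re_ofReal_mul, hre, mul_zero])
  have h2 : Φ z (((t : ℂ) * η) • e) (((t : ℂ) * η) • e) = ((t : ℂ) ^ 2 * η ^ 2) * Φ z e e := by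
    simp only [map_smul, LinearMap.smul_apply, smul_eq_mul]
    ring
  rw [h2] at h1
  have h3 : ‖3 * ((t : ℂ) ^ 2 * η ^ 2 * Φ z e e)‖ = 3 * t ^ 2 * ‖Φ z e e‖ := by
    rw [norm_mul, norm_mul, norm_mul, norm_pow, norm_pow, hη]
    simp [abs_of_nonneg ht]
    ring
  have h4 : ‖3 * ((t : ℂ) ^ 2 * η ^ 2 * Φ z e e)‖ - ‖Φ z z z‖ ≤
      ‖Φ z z z + 3 * ((t : ℂ) ^ 2 * η ^ 2 * Φ z e e)‖ := by
    have := norm_sub_norm_le (3 * ((t : ℂ) ^ 2 * η ^ 2 * Φ z e e)) (-Φ z z z)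
    rw [norm_neg, sub_neg_eq_add, add_comm _ (Φ z z z)] at this
    exact this
  linarith

theorem exists_cs_zero (a b : ℝ) : ∃ c s : ℝ, c ^ 2 + s ^ 2 = 1 ∧ c * a + s * b = 0 := by
  by_cases h : a ^ 2 + b ^ 2 = 0
  · have ha : a = 0 := by nlinarith [sq_nonneg a, sq_nonneg b]
    have hb : b = 0 := by nlinarith [sq_nonneg a, sq_nonneg b]
    exact ⟨1, 0, by norm_num, by simp [ha]⟩
  · have hp : 0 < a ^ 2 + b ^ 2 := lt_of_le_of_ne (by positivity) (Ne.symm h)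
    have hs := Real.sqrt_pos.2 hp
    refine ⟨b / √(a ^ 2 + b ^ 2), -a / √(a ^ 2 + b ^ 2), ?_, ?_⟩
    · rw [div_pow, div_pow, Real.sq_sqrt hp.le]
      field_simp
      ring
    · field_simp
      ring

theorem Sym.H2 (h : Sym Φ) (z e e' : V) (hz : ‖z‖ = 1) (he : ‖e‖ = 1) (he' : ‖e'‖ = 1)
    (hee : (inner ℂ e e') = 0) (b₁ b₂ p : ℝ) (hb : b₂ ≤ b₁)
    (h1 : Φ z e e = b₁) (h2 : Φ z e' e' = b₂) (h12 : Φ z e e' = 0) (hp : Φ z z z = p)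
    (t R : ℝ) (ht : 0 ≤ t) (hR : 0 ≤ R) (hRt : R ^ 2 = 1 + t ^ 2) :
    p + 3 * t ^ 2 * b₂ ≤ R ^ 3 := by
  obtain ⟨c, s, hcs, h0⟩ := exists_cs_zero ((inner ℂ z e)).re ((inner ℂ z e')).re
  have hy : ‖((t * c : ℝ) : ℂ) • e + ((t * s : ℝ) : ℂ) • e'‖ = t := by
    have h3 : ‖((t * c : ℝ) : ℂ) • e + ((t * s : ℝ) : ℂ) • e'‖ ^ 2 = t ^ 2 := by
      rw [@norm_add_sq ℂ, norm_smul, norm_smul, he, he', inner_smul_left, inner_smul_right, hee]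
      simp only [Complex.norm_real, Real.norm_eq_abs, mul_one, sq_abs, mul_zero]
      simp
      linear_combination t ^ 2 * hcs
    exact (sq_eq_sq₀ (norm_nonneg _) ht).1 h3
  have h3 := h.pm z (((t * c : ℝ) : ℂ) • e + ((t * s : ℝ) : ℂ) • e') hz t R hy hR hRt (by
    rw [inner_add_right, inner_smul_right, inner_smul_right, Complex.add_re,
      Complex.re_ofReal_mul, Complex.re_ofReal_mul]
    linear_combination t * h0)
  have h21 : Φ z e' e = 0 := by rw [h.s23]; exact h12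
  have h4 : Φ z (((t * c : ℝ) : ℂ) • e + ((t * s : ℝ) : ℂ) • e')
      (((t * c : ℝ) : ℂ) • e + ((t * s : ℝ) : ℂ) • e') =
      ((t ^ 2 * (c ^ 2 * b₁ + s ^ 2 * b₂) : ℝ) : ℂ) := by
    simp only [map_add, map_smul, LinearMap.add_apply, LinearMap.smul_apply, smul_eq_mul, h1, h2,
      h12, h21]
    push_cast
    ring
  rw [h4, hp] at h3
  have h5 : (p : ℂ) + 3 * ((t ^ 2 * (c ^ 2 * b₁ + s ^ 2 * b₂) : ℝ) : ℂ) =
      ((p + 3 * (t ^ 2 * (c ^ 2 * b₁ + s ^ 2 * b₂)) : ℝ) : ℂ) := by push_cast; ring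
  rw [h5, Complex.norm_real, Real.norm_eq_abs] at h3
  have h6 := le_of_abs_le h3
  have h7 : b₂ ≤ c ^ 2 * b₁ + s ^ 2 * b₂ := by
    have h8 : b₂ = (c ^ 2 + s ^ 2) * b₂ := by rw [hcs, one_mul]
    nlinarith [mul_nonneg (sq_nonneg c) (sub_nonneg.2 hb)]
  nlinarith [mul_le_mul_of_nonneg_left h7 (sq_nonneg t)]

theorem Sym.sing0 (h : Sym Φ) (z e e' : V) (hz : ‖z‖ = 1) (he : ‖e‖ = 1) (he' : ‖e'‖ = 1)
    (hee : (inner ℂ e e') = 0) (b₁ b₂ p : ℝ) (hb : b₂ ≤ b₁) (hb2 : 0 ≤ b₂) (hp0 : 0 ≤ p)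
    (h1 : Φ z e e = b₁) (h2 : Φ z e' e' = b₂) (h12 : Φ z e e' = 0) (hp : Φ z z z = p)
    (α β : ℝ) (hα : 0 ≤ α) (hβ : 0 ≤ β) :
    α * b₁ + β * b₂ ≤ √(α ^ 2 + α * β + β ^ 2) := by
  set N := √(α ^ 2 + α * β + β ^ 2) with hN
  have hN2 : N ^ 2 = α ^ 2 + α * β + β ^ 2 := Real.sq_sqrt (by positivity)
  by_cases h0 : α + β = 0
  · have ha : α = 0 := by linarith
    have hb' : β = 0 := by linarith
    rw [ha, hb']
    simp only [zero_mul, add_zero]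
    exact Real.sqrt_nonneg _
  · have hab : 0 < α + β := lt_of_le_of_ne (by positivity) (Ne.symm h0)
    have hNpos : 0 < N := by
      apply Real.sqrt_pos.2
      nlinarith [mul_nonneg hα hβ]
    have hA := h.H1 z e hz he (√(3 * α * (α + β) / N ^ 2)) ((2 * α + β) / N)
      (Real.sqrt_nonneg _) (by positivity) (by
        rw [Real.sq_sqrt (by positivity)]
        field_simp
        rw [hN2]; ring)
    have hB := h.H2 z e e' hz he he' hee b₁ b₂ p hb h1 h2 h12 hp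
      (√(3 * β * (α + β) / N ^ 2)) ((α + 2 * β) / N)
      (Real.sqrt_nonneg _) (by positivity) (by
        rw [Real.sq_sqrt (by positivity)]
        field_simp
        rw [hN2]; ring)
    rw [Real.sq_sqrt (by positivity)] at hA hB
    rw [h1, hp, Complex.norm_real, Complex.norm_real, Real.norm_eq_abs, Real.norm_eq_abs,
      abs_of_nonneg hp0, abs_of_nonneg (hb2.trans hb)] at hA
    have hC : 9 * (α + β) * (α * b₁ + β * b₂) / N ^ 2 ≤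
        ((2 * α + β) / N) ^ 3 + ((α + 2 * β) / N) ^ 3 := by
      have : 9 * (α + β) * (α * b₁ + β * b₂) / N ^ 2 =
        (3 * (3 * α * (α + β) / N ^ 2) * b₁ - p) + (p + 3 * (3 * β * (α + β) / N ^ 2) * b₂) := by
        field_simp
        ring
      rw [this]
      linarith
    have hD : ((2 * α + β) / N) ^ 3 + ((α + 2 * β) / N) ^ 3 = 9 * (α + β) * N / N ^ 2 := by
      have : (2 * α + β) ^ 3 + (α + 2 * β) ^ 3 = 9 * (α + β) * N ^ 2 := by rw [hN2]; ring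
      rw [div_pow, div_pow, ← add_div, this]
      field_simp
    rw [hD] at hC
    have hE := (div_le_div_iff_of_pos_right (by positivity)).1 hC
    have hF : 0 < 9 * (α + β) := by positivity
    exact le_of_mul_le_mul_left hE hF

/-- phases `ω`, `κ` with `ω κ² = 1` and `ω³ p ≥ 0` -/
theorem exists_phases (p : ℂ) : ∃ ω κ : ℂ, ‖ω‖ = 1 ∧ ‖κ‖ = 1 ∧ ω * κ ^ 2 = 1 ∧
    ω ^ 3 * p = (‖p‖ : ℂ) := by
  refine ⟨Complex.exp ((-(arg p) / 3 : ℝ) * I), Complex.exp (((arg p) / 6 : ℝ) * I),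
    Complex.norm_exp_ofReal_mul_I _, Complex.norm_exp_ofReal_mul_I _, ?_, ?_⟩
  · rw [← Complex.exp_nat_mul, ← Complex.exp_add]
    have : (((-(arg p) / 3 : ℝ) : ℂ) * I) + ((2 : ℕ) : ℂ) * ((((arg p) / 6 : ℝ) : ℂ) * I) = 0 := by
      push_cast
      ring
    rw [this, Complex.exp_zero]
  · rw [← Complex.exp_nat_mul]
    have : ((3 : ℕ) : ℂ) * (((-(arg p) / 3 : ℝ) : ℂ) * I) + (arg p : ℂ) * I = 0 := by
      push_cast
      ring
    calc _ = Complex.exp (((3 : ℕ) : ℂ) * (((-(arg p) / 3 : ℝ) : ℂ) * I)) *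
        ((‖p‖ : ℂ) * Complex.exp (arg p * I)) := by rw [Complex.norm_mul_exp_arg_mul_I p]
      _ = _ := by rw [mul_left_comm, ← Complex.exp_add, this, Complex.exp_zero, mul_one]

theorem Sym.sing (h : Sym Φ) (z e e' : V) (hz : ‖z‖ = 1) (he : ‖e‖ = 1) (he' : ‖e'‖ = 1)
    (hee : (inner ℂ e e') = 0) (b₁ b₂ : ℝ) (hb : b₂ ≤ b₁) (hb2 : 0 ≤ b₂)
    (h1 : Φ z e e = b₁) (h2 : Φ z e' e' = b₂) (h12 : Φ z e e' = 0)
    (α β : ℝ) (hα : 0 ≤ α) (hβ : 0 ≤ β) :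
    α * b₁ + β * b₂ ≤ √(α ^ 2 + α * β + β ^ 2) := by
  obtain ⟨ω, κ, hω, hκ, hωκ, hp⟩ := exists_phases (Φ z z z)
  refine h.sing0 (ω • z) (κ • e) (κ • e') (by rw [norm_smul, hω, hz, mul_one])
    (by rw [norm_smul, hκ, he, mul_one]) (by rw [norm_smul, hκ, he', mul_one])
    (by rw [inner_smul_left, inner_smul_right, hee]; simp) b₁ b₂ ‖Φ z z z‖ hb hb2 (norm_nonneg _)
    ?_ ?_ ?_ ?_ α β hα hβ
  · simp only [map_smul, LinearMap.smul_apply, smul_eq_mul, h1]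
    linear_combination (b₁ : ℂ) * hωκ
  · simp only [map_smul, LinearMap.smul_apply, smul_eq_mul, h2]
    linear_combination (b₂ : ℂ) * hωκ
  · simp only [map_smul, LinearMap.smul_apply, smul_eq_mul, h12, mul_zero]
  · simp only [map_smul, LinearMap.smul_apply, smul_eq_mul]
    rw [← hp]
    ring

/-! ### Takagi -/

theorem bil_le (B : V →ₗ[ℂ] V →ₗ[ℂ] ℂ) (hB : ∀ x y, B x y = B y x) (b : ℝ)
    (S : Submodule ℂ V) (hb : ∀ x ∈ S, ‖B x x‖ ≤ b * ‖x‖ ^ 2) {x y : V} (hx : x ∈ S)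
    (hy : y ∈ S) : ‖B x y‖ ≤ b * (‖x‖ * ‖y‖) := by
  have key : ∀ u ∈ S, ∀ v ∈ S, ‖u‖ = 1 → ‖v‖ = 1 → ‖B u v‖ ≤ b := by
    intro u hu v hv hu1 hv1
    have h1 : 4 * B u v = B (u + v) (u + v) - B (u - v) (u - v) := by
      simp only [map_add, map_sub, LinearMap.add_apply, LinearMap.sub_apply, hB v u]
      ring
    have h2 := hb _ (S.add_mem hu hv)
    have h3 := hb _ (S.sub_mem hu hv)
    have h4 : ‖u + v‖ ^ 2 + ‖u - v‖ ^ 2 = 4 := by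
      have := parallelogram_law_with_norm ℂ u v
      rw [hu1, hv1] at this
      nlinarith
    have h5 : ‖4 * B u v‖ ≤ b * ‖u + v‖ ^ 2 + b * ‖u - v‖ ^ 2 := by
      rw [h1]
      exact (norm_sub_le _ _).trans (add_le_add h2 h3)
    rw [← mul_add, h4, norm_mul] at h5
    simp only [Complex.norm_ofNat] at h5
    linarith
  by_cases hx0 : x = 0
  · simp [hx0]
  by_cases hy0 : y = 0
  · simp [hy0]
  have hxn : (0 : ℝ) < ‖x‖ := norm_pos_iff.2 hx0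
  have hyn : (0 : ℝ) < ‖y‖ := norm_pos_iff.2 hy0
  have h1 := key (((‖x‖ : ℂ))⁻¹ • x) (S.smul_mem _ hx) (((‖y‖ : ℂ))⁻¹ • y) (S.smul_mem _ hy)
    (by rw [norm_smul, norm_inv, Complex.norm_real, norm_norm, inv_mul_cancel₀ hxn.ne'])
    (by rw [norm_smul, norm_inv, Complex.norm_real, norm_norm, inv_mul_cancel₀ hyn.ne'])
  simp only [map_smul, LinearMap.smul_apply, smul_eq_mul, norm_mul, norm_inv,
    Complex.norm_real, norm_norm] at h1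
  have h2 : ‖y‖⁻¹ * (‖x‖⁻¹ * ‖B x y‖) * (‖x‖ * ‖y‖) ≤ b * (‖x‖ * ‖y‖) :=
    mul_le_mul_of_nonneg_right h1 (by positivity)
  have h3 : ‖y‖⁻¹ * (‖x‖⁻¹ * ‖B x y‖) * (‖x‖ * ‖y‖) = ‖B x y‖ := by field_simp
  rwa [h3] at h2

/-- a maximiser of `‖B y y‖` on the unit sphere of a subspace is a singular vector on it -/
theorem max_orth (B : V →ₗ[ℂ] V →ₗ[ℂ] ℂ) (hB : ∀ x y, B x y = B y x) (b : ℝ)
    (S : Submodule ℂ V) (hb : ∀ x ∈ S, ‖B x x‖ ≤ b * ‖x‖ ^ 2) (e : V) (he : e ∈ S)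
    (he1 : ‖e‖ = 1) (hbe : B e e = b) {v : V} (hv : v ∈ S) (hev : (inner ℂ e v) = 0) : B e v = 0 := by
  by_contra hne
  have hb0 : 0 ≤ b := by
    have := hb e he
    rw [he1, one_pow, mul_one] at this
    exact (norm_nonneg _).trans this
  have hn : 0 < ‖B e v‖ := norm_pos_iff.2 hne
  set ω : ℂ := conj (B e v) / ‖B e v‖ with hω
  have hωn : ‖ω‖ = 1 := by rw [hω]; simp [hne]
  have hωB : ω * B e v = (‖B e v‖ : ℂ) := by
    rw [hω]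
    have : (‖B e v‖ : ℂ) ≠ 0 := by simpa using hne
    field_simp
    rw [mul_comm (conj (B e v)), Complex.mul_conj, Complex.normSq_eq_norm_sq]
    push_cast
    ring
  -- the bound for small real `t`
  have key : ∀ t : ℝ, 0 < t → 2 * ‖B e v‖ ≤ t * (b * ‖v‖ ^ 2 + ‖B v v‖) := by
    intro t ht
    have h1 := hb (e + ((t : ℂ) * ω) • v) (S.add_mem he (S.smul_mem _ hv))
    have h2 : ‖e + ((t : ℂ) * ω) • v‖ ^ 2 = 1 + t ^ 2 * ‖v‖ ^ 2 := by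
      rw [@norm_add_sq ℂ, inner_smul_right, hev, he1, norm_smul, norm_mul, hωn]
      simp
      rw [mul_pow, sq_abs]
    have h3 : B (e + ((t : ℂ) * ω) • v) (e + ((t : ℂ) * ω) • v) =
        (b + 2 * t * ‖B e v‖ : ℝ) + (t : ℂ) ^ 2 * ω ^ 2 * B v v := by
      simp only [map_add, map_smul, LinearMap.add_apply, LinearMap.smul_apply, smul_eq_mul,
        hB v e, hbe]
      push_cast
      linear_combination 2 * (t : ℂ) * hωB
    rw [h2, h3] at h1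
    have h4 : (b + 2 * t * ‖B e v‖) - t ^ 2 * ‖B v v‖ ≤
        ‖((b + 2 * t * ‖B e v‖ : ℝ) : ℂ) + (t : ℂ) ^ 2 * ω ^ 2 * B v v‖ := by
      have h5 := norm_sub_norm_le (((b + 2 * t * ‖B e v‖ : ℝ) : ℂ)) (-((t : ℂ) ^ 2 * ω ^ 2 * B v v))
      rw [norm_neg, sub_neg_eq_add] at h5
      have h6 : ‖(t : ℂ) ^ 2 * ω ^ 2 * B v v‖ = t ^ 2 * ‖B v v‖ := by
        rw [norm_mul, norm_mul, norm_pow, norm_pow, hωn]; simp
      rw [h6, Complex.norm_real, Real.norm_eq_abs] at h5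
      exact (sub_le_sub_right (le_abs_self _) _).trans h5
    have h7 : t * (2 * ‖B e v‖) ≤ t * (t * (b * ‖v‖ ^ 2 + ‖B v v‖)) := by nlinarith
    exact le_of_mul_le_mul_left h7 ht
  have hC : 0 ≤ b * ‖v‖ ^ 2 + ‖B v v‖ := by positivity
  set C := b * ‖v‖ ^ 2 + ‖B v v‖ with hCd
  have := key (‖B e v‖ / (C + 1)) (by positivity)
  have h8 : ‖B e v‖ / (C + 1) * C ≤ ‖B e v‖ := by
    rw [div_mul_eq_mul_div, div_le_iff₀ (by positivity)]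
    nlinarith
  linarith

/-- existence of a maximiser with a phase -/
theorem exists_max [FiniteDimensional ℂ V] (B : V →ₗ[ℂ] V →ₗ[ℂ] ℂ) (S : Submodule ℂ V)
    (hS : S ≠ ⊥) : ∃ e ∈ S, ‖e‖ = 1 ∧ ∃ b : ℝ, 0 ≤ b ∧ B e e = b ∧
      ∀ x ∈ S, ‖B x x‖ ≤ b * ‖x‖ ^ 2 := by
  have : ProperSpace V := FiniteDimensional.proper ℂ V
  obtain ⟨w, hw, hw0⟩ := S.exists_mem_ne_zero_of_ne_bot hS
  have hcomp : IsCompact ({x : V | x ∈ S} ∩ Metric.sphere (0 : V) 1) :=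
    (isCompact_sphere (0 : V) 1).inter_left (Submodule.closed_of_finiteDimensional S)
  have hne : ({x : V | x ∈ S} ∩ Metric.sphere (0 : V) 1).Nonempty := by
    refine ⟨((‖w‖ : ℂ))⁻¹ • w, S.smul_mem _ hw, ?_⟩
    rw [mem_sphere_zero_iff_norm, norm_smul, norm_inv, Complex.norm_real, norm_norm,
      inv_mul_cancel₀ (norm_ne_zero_iff.2 hw0)]
  have hcont : Continuous fun x : V => ‖B x x‖ := by
    have h1 : Continuous fun x : V => (LinearMap.toContinuousBilinearMap B) x x := by fun_prop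
    exact h1.norm
  obtain ⟨e, ⟨heS, he1⟩, hmax⟩ := hcomp.exists_isMaxOn hne hcont.continuousOn
  rw [mem_sphere_zero_iff_norm] at he1
  have hbound : ∀ x ∈ S, ‖B x x‖ ≤ ‖B e e‖ * ‖x‖ ^ 2 := by
    intro x hx
    by_cases hx0 : x = 0
    · simp [hx0]
    have hxn : (0 : ℝ) < ‖x‖ := norm_pos_iff.2 hx0
    have h1 := hmax (a := ((‖x‖ : ℂ))⁻¹ • x) ⟨S.smul_mem _ hx, by
      rw [mem_sphere_zero_iff_norm, norm_smul, norm_inv, Complex.norm_real, norm_norm,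
        inv_mul_cancel₀ hxn.ne']⟩
    simp only [Set.mem_ofPred_eq, map_smul, LinearMap.smul_apply, smul_eq_mul, norm_mul, norm_inv,
      Complex.norm_real, norm_norm] at h1
    have h2 : ‖x‖⁻¹ * (‖x‖⁻¹ * ‖B x x‖) * ‖x‖ ^ 2 ≤ ‖B e e‖ * ‖x‖ ^ 2 :=
      mul_le_mul_of_nonneg_right h1 (by positivity)
    have h3 : ‖x‖⁻¹ * (‖x‖⁻¹ * ‖B x x‖) * ‖x‖ ^ 2 = ‖B x x‖ := by field_simp
    rwa [h3] at h2
  -- the phase
  obtain ⟨κ, hκ, hκe⟩ : ∃ κ : ℂ, ‖κ‖ = 1 ∧ κ ^ 2 * B e e = (‖B e e‖ : ℂ) := by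
    refine ⟨Complex.exp ((-(arg (B e e)) / 2 : ℝ) * I), Complex.norm_exp_ofReal_mul_I _, ?_⟩
    rw [← Complex.exp_nat_mul]
    have : ((2 : ℕ) : ℂ) * (((-(arg (B e e)) / 2 : ℝ) : ℂ) * I) + (arg (B e e) : ℂ) * I = 0 := by
      push_cast
      ring
    calc _ = Complex.exp (((2 : ℕ) : ℂ) * (((-(arg (B e e)) / 2 : ℝ) : ℂ) * I)) *
        ((‖B e e‖ : ℂ) * Complex.exp (arg (B e e) * I)) := by
          rw [Complex.norm_mul_exp_arg_mul_I (B e e)]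
      _ = _ := by rw [mul_left_comm, ← Complex.exp_add, this, Complex.exp_zero, mul_one]
  refine ⟨κ • e, S.smul_mem _ heS, by rw [norm_smul, hκ, he1, mul_one], ‖B e e‖, norm_nonneg _, ?_,
    hbound⟩
  simp only [map_smul, LinearMap.smul_apply, smul_eq_mul]
  rw [← hκe]
  ring

/-! ### the inequality for a pair of indices -/

theorem bessel2 {u v e : V} (hu : ‖u‖ = 1) (hv : ‖v‖ = 1) (he : ‖e‖ = 1) (huv : (inner ℂ u v) = 0) :
    ‖(inner ℂ e u)‖ ^ 2 + ‖(inner ℂ e v)‖ ^ 2 ≤ 1 := by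
  have ho : Orthonormal ℂ ![u, v] := by
    rw [orthonormal_vecCons_iff]
    refine ⟨hu, ?_, ?_⟩
    · intro i
      fin_cases i
      simpa using huv
    · rw [orthonormal_vecCons_iff]
      refine ⟨hv, fun i => i.elim0, ?_⟩
      exact ⟨fun i => i.elim0, fun i => i.elim0⟩
  have := ho.sum_inner_products_le e (s := Finset.univ)
  rw [Fin.sum_univ_two, he, one_pow] at this
  simp only [Matrix.cons_val_zero, Matrix.cons_val_one] at this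
  rwa [norm_inner_symm u e, norm_inner_symm v e] at this

theorem bracket_le {x₁ y₁ x₂ y₂ e : V} (he : ‖e‖ = 1) (h1 : (inner ℂ x₁ y₁) = 0) (h2 : (inner ℂ x₂ y₂) = 0) :
    ‖(inner ℂ e x₁)‖ * ‖(inner ℂ e y₂)‖ + ‖(inner ℂ e x₂)‖ * ‖(inner ℂ e y₁)‖ ≤ max (‖x₁‖ * ‖y₂‖) (‖x₂‖ * ‖y₁‖) := by
  have cs : ∀ x : V, ‖(inner ℂ e x)‖ ≤ ‖x‖ := fun x => by
    have := norm_inner_le_norm (𝕜 := ℂ) e x
    rwa [he, one_mul] at this
  by_cases hx1 : x₁ = 0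
  · rw [hx1, inner_zero_right, norm_zero, zero_mul, zero_add]
    exact le_trans (mul_le_mul (cs _) (cs _) (norm_nonneg _) (norm_nonneg _)) (le_max_right _ _)
  by_cases hy2 : y₂ = 0
  · rw [hy2, inner_zero_right, norm_zero, mul_zero, zero_add]
    exact le_trans (mul_le_mul (cs _) (cs _) (norm_nonneg _) (norm_nonneg _)) (le_max_right _ _)
  by_cases hx2 : x₂ = 0
  · rw [hx2, inner_zero_right, norm_zero, zero_mul, add_zero]
    exact le_trans (mul_le_mul (cs _) (cs _) (norm_nonneg _) (norm_nonneg _)) (le_max_left _ _)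
  by_cases hy1 : y₁ = 0
  · rw [hy1, inner_zero_right, norm_zero, mul_zero, add_zero]
    exact le_trans (mul_le_mul (cs _) (cs _) (norm_nonneg _) (norm_nonneg _)) (le_max_left _ _)
  have nz : ∀ x : V, x ≠ 0 → ‖((‖x‖ : ℂ))⁻¹ • x‖ = 1 := fun x hx => by
    rw [norm_smul, norm_inv, Complex.norm_real, norm_norm, inv_mul_cancel₀ (norm_ne_zero_iff.2 hx)]
  have b1 := bessel2 (nz x₁ hx1) (nz y₁ hy1) he (by
    rw [inner_smul_left, inner_smul_right, h1]; simp)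
  have b2 := bessel2 (nz x₂ hx2) (nz y₂ hy2) he (by
    rw [inner_smul_left, inner_smul_right, h2]; simp)
  have nn : ∀ x : V, ‖(inner ℂ e (((‖x‖ : ℂ))⁻¹ • x))‖ = ‖x‖⁻¹ * ‖(inner ℂ e x)‖ := fun x => by
    rw [inner_smul_right, norm_mul, norm_inv, Complex.norm_real, norm_norm]
  rw [nn, nn] at b1 b2
  have p1 : (0 : ℝ) < ‖x₁‖ := norm_pos_iff.2 hx1
  have p2 : (0 : ℝ) < ‖x₂‖ := norm_pos_iff.2 hx2
  have q1 : (0 : ℝ) < ‖y₁‖ := norm_pos_iff.2 hy1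
  have q2 : (0 : ℝ) < ‖y₂‖ := norm_pos_iff.2 hy2
  set a₁ := ‖x₁‖⁻¹ * ‖(inner ℂ e x₁)‖ with ha1
  set a₂ := ‖x₂‖⁻¹ * ‖(inner ℂ e x₂)‖ with ha2
  set c₁ := ‖y₁‖⁻¹ * ‖(inner ℂ e y₁)‖ with hc1
  set c₂ := ‖y₂‖⁻¹ * ‖(inner ℂ e y₂)‖ with hc2
  have e1 : ‖(inner ℂ e x₁)‖ * ‖(inner ℂ e y₂)‖ = (‖x₁‖ * ‖y₂‖) * (a₁ * c₂) := by
    rw [ha1, hc2]; field_simp
  have e2 : ‖(inner ℂ e x₂)‖ * ‖(inner ℂ e y₁)‖ = (‖x₂‖ * ‖y₁‖) * (a₂ * c₁) := by
    rw [ha2, hc1]; field_simp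
  have n1 : 0 ≤ a₁ := by positivity
  have n2 : 0 ≤ a₂ := by positivity
  have n3 : 0 ≤ c₁ := by positivity
  have n4 : 0 ≤ c₂ := by positivity
  rw [e1, e2]
  set M := max (‖x₁‖ * ‖y₂‖) (‖x₂‖ * ‖y₁‖)
  have m1 : ‖x₁‖ * ‖y₂‖ ≤ M := le_max_left _ _
  have m2 : ‖x₂‖ * ‖y₁‖ ≤ M := le_max_right _ _
  have m0 : 0 ≤ M := le_trans (by positivity) m1
  have t1 := mul_le_mul_of_nonneg_right m1 (mul_nonneg n1 n4)
  have t2 := mul_le_mul_of_nonneg_right m2 (mul_nonneg n2 n3)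
  have t3 : a₁ * c₂ + a₂ * c₁ ≤ 1 := by nlinarith [sq_nonneg (a₁ - c₂), sq_nonneg (a₂ - c₁)]
  nlinarith [mul_le_mul_of_nonneg_left t3 m0]

theorem Sym.b_le_one (h : Sym Φ) (z e : V) (hz : ‖z‖ = 1) (he : ‖e‖ = 1) : ‖Φ z e e‖ ≤ 1 := by
  have h1 := h.H1 z e hz he (√3) 2 (Real.sqrt_nonneg _) (by norm_num) (by
    rw [Real.sq_sqrt (by norm_num)]; norm_num)
  have h2 := h.le z
  rw [hz] at h2
  rw [Real.sq_sqrt (by norm_num)] at h1
  linarith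

theorem Sym.pair [FiniteDimensional ℂ V] (h : Sym Φ) (z x₁ y₁ x₂ y₂ : V) (hz : ‖z‖ = 1)
    (h1 : (inner ℂ x₁ y₁) = 0) (h2 : (inner ℂ x₂ y₂) = 0) :
    ‖Φ z x₁ y₂‖ + ‖Φ z x₂ y₁‖ ≤ √((‖x₁‖ * ‖y₂‖) ^ 2 + (‖x₁‖ * ‖y₂‖) * (‖x₂‖ * ‖y₁‖) +
      (‖x₂‖ * ‖y₁‖) ^ 2) := by
  have hz0 : z ≠ 0 := fun hh => by rw [hh, norm_zero] at hz; norm_num at hz
  have hB : ∀ x y, Φ z x y = Φ z y x := h.s23 z
  obtain ⟨e, -, he1, b₁, hb10, hbe, hbd⟩ := exists_max (Φ z) (⊤ : Submodule ℂ V) (by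
    intro hh
    have : z ∈ (⊥ : Submodule ℂ V) := hh ▸ Submodule.mem_top
    exact hz0 ((Submodule.mem_bot ℂ).1 this))
  have hb1le : b₁ ≤ 1 := by
    have := h.b_le_one z e hz he1
    rw [hbe, Complex.norm_real, Real.norm_eq_abs] at this
    exact (le_abs_self _).trans this
  set S : Submodule ℂ V := (ℂ ∙ e)ᗮ with hS
  have hmemS : ∀ x, x ∈ S ↔ (inner ℂ e x) = 0 := fun x => Submodule.mem_orthogonal_singleton_iff_inner_right
  -- the second singular value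
  obtain ⟨b₂, hb20, hb21, hb2S, hsing⟩ : ∃ b₂ : ℝ, 0 ≤ b₂ ∧ b₂ ≤ b₁ ∧
      (∀ x ∈ S, ‖Φ z x x‖ ≤ b₂ * ‖x‖ ^ 2) ∧
      ∀ α β : ℝ, 0 ≤ α → 0 ≤ β → α * b₁ + β * b₂ ≤ √(α ^ 2 + α * β + β ^ 2) := by
    by_cases hbot : S = ⊥
    · refine ⟨0, le_refl _, hb10, ?_, ?_⟩
      · intro x hx
        rw [hbot, Submodule.mem_bot] at hx
        simp [hx]
      · intro α β hα hβ
        rw [mul_zero, add_zero]
        apply Real.le_sqrt_of_sq_le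
        have : (α * b₁) ^ 2 ≤ α ^ 2 := by
          rw [mul_pow]
          have : b₁ ^ 2 ≤ 1 := by nlinarith
          nlinarith [sq_nonneg α]
        nlinarith [mul_nonneg hα hβ, sq_nonneg β]
    · obtain ⟨e', he'S, he'1, b₂, hb20, hbe', hbd'⟩ := exists_max (Φ z) S hbot
      have hb21 : b₂ ≤ b₁ := by
        have := hbd e' Submodule.mem_top
        rw [hbe', he'1, Complex.norm_real, Real.norm_eq_abs, one_pow, mul_one] at this
        exact (le_abs_self _).trans this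
      refine ⟨b₂, hb20, hb21, hbd', fun α β hα hβ => ?_⟩
      exact h.sing z e e' hz he1 he'1 ((hmemS e').1 he'S) b₁ b₂ hb21 hb20 hbe hbe'
        (max_orth (Φ z) hB b₁ ⊤ hbd e Submodule.mem_top he1 hbe Submodule.mem_top
          ((hmemS e').1 he'S)) α β hα hβ
  -- decomposition
  have hdec : ∀ x : V, x - (inner ℂ e x) • e ∈ S := fun x => by
    rw [hmemS, inner_sub_right, inner_smul_right, inner_self_eq_norm_sq_to_K, he1]
    simp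
  have hpyth : ∀ x : V, ‖x‖ ^ 2 = ‖(inner ℂ e x)‖ ^ 2 + ‖x - (inner ℂ e x) • e‖ ^ 2 := fun x => by
    have h3 : x = (inner ℂ e x) • e + (x - (inner ℂ e x) • e) := by abel
    conv_lhs => rw [h3]
    rw [@norm_add_sq ℂ, inner_smul_left, (hmemS _).1 (hdec x), norm_smul, he1]
    simp
  have hBdec : ∀ x y : V, ‖Φ z x y‖ ≤ b₂ * (‖x‖ * ‖y‖) + (b₁ - b₂) * (‖(inner ℂ e x)‖ * ‖(inner ℂ e y)‖) := by
    intro x y
    have o1 : ∀ v ∈ S, Φ z e v = 0 := fun v hv =>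
      max_orth (Φ z) hB b₁ ⊤ hbd e Submodule.mem_top he1 hbe Submodule.mem_top ((hmemS v).1 hv)
    have h3 : Φ z x y = (inner ℂ e x) * (inner ℂ e y) * b₁ + Φ z (x - (inner ℂ e x) • e) (y - (inner ℂ e y) • e) := by
      have h4 := o1 _ (hdec y)
      have h5 := o1 _ (hdec x)
      rw [hB] at h5
      simp only [map_sub, map_smul, LinearMap.sub_apply, LinearMap.smul_apply, smul_eq_mul, hbe]
        at h4 h5 ⊢
      linear_combination (inner ℂ e x) * h4 + (inner ℂ e y) * h5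
    have h6 : ‖Φ z x y‖ ≤ ‖(inner ℂ e x)‖ * ‖(inner ℂ e y)‖ * b₁ +
        b₂ * (‖x - (inner ℂ e x) • e‖ * ‖y - (inner ℂ e y) • e‖) := by
      rw [h3]
      refine (norm_add_le _ _).trans (add_le_add ?_ ?_)
      · rw [norm_mul, norm_mul, Complex.norm_real, Real.norm_eq_abs, abs_of_nonneg hb10]
      · exact bil_le (Φ z) hB b₂ S hb2S (hdec x) (hdec y)
    have h7 : ‖(inner ℂ e x)‖ * ‖(inner ℂ e y)‖ + ‖x - (inner ℂ e x) • e‖ * ‖y - (inner ℂ e y) • e‖ ≤ ‖x‖ * ‖y‖ := by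
      apply abs_le_of_sq_le_sq' _ (by positivity) |>.2
      have hx := hpyth x
      have hy := hpyth y
      rw [mul_pow, hx, hy]
      nlinarith [sq_nonneg (‖(inner ℂ e x)‖ * ‖y - (inner ℂ e y) • e‖ - ‖(inner ℂ e y)‖ * ‖x - (inner ℂ e x) • e‖)]
    nlinarith [mul_le_mul_of_nonneg_left h7 hb20]
  have k1 := hBdec x₁ y₂
  have k2 := hBdec x₂ y₁
  have k3 := bracket_le he1 h1 h2
  have k4 := mul_le_mul_of_nonneg_left k3 (sub_nonneg.2 hb21)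
  set α := ‖x₁‖ * ‖y₂‖ with hα
  set β := ‖x₂‖ * ‖y₁‖ with hβ
  have hα0 : 0 ≤ α := by positivity
  have hβ0 : 0 ≤ β := by positivity
  rcases le_total β α with hab | hab
  · rw [max_eq_left hab] at k4
    have k5 := hsing α β hα0 hβ0
    linarith
  · rw [max_eq_right hab] at k4
    have k5 := hsing β α hβ0 hα0
    rw [show β ^ 2 + β * α + α ^ 2 = α ^ 2 + α * β + β ^ 2 by ring] at k5
    linarith

theorem Sym.pair' [FiniteDimensional ℂ V] (h : Sym Φ) (z x₁ y₁ x₂ y₂ : V)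
    (h1 : (inner ℂ x₁ y₁) = 0) (h2 : (inner ℂ x₂ y₂) = 0) :
    ‖Φ z x₁ y₂‖ + ‖Φ z x₂ y₁‖ ≤ ‖z‖ * √((‖x₁‖ * ‖y₂‖) ^ 2 + (‖x₁‖ * ‖y₂‖) * (‖x₂‖ * ‖y₁‖) +
      (‖x₂‖ * ‖y₁‖) ^ 2) := by
  by_cases hz : z = 0
  · simp [hz]
  have hzn : (0 : ℝ) < ‖z‖ := norm_pos_iff.2 hz
  have := h.pair (((‖z‖ : ℂ))⁻¹ • z) x₁ y₁ x₂ y₂ (by
    rw [norm_smul, norm_inv, Complex.norm_real, norm_norm, inv_mul_cancel₀ hzn.ne']) h1 h2
  simp only [map_smul, LinearMap.smul_apply, smul_eq_mul, norm_mul, norm_inv,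
      Complex.norm_real, norm_norm] at this
  rw [← mul_add, inv_mul_le_iff₀ hzn] at this
  exact this

/-! ### frames -/

/-- mixing of a triple of vectors by a matrix -/
noncomputable def mix (U : Matrix (Fin 3) (Fin 3) ℂ) (x : Fin 3 → V) : Fin 3 → V :=
  fun i => ∑ j, U i j • x j

/-- the antisymmetrised form of three triples -/
def D (Φ : V →ₗ[ℂ] V →ₗ[ℂ] V →ₗ[ℂ] ℂ) (x y z : Fin 3 → V) : ℂ :=
  Φ (x 0) (y 1) (z 2) - Φ (x 0) (y 2) (z 1) + Φ (x 1) (y 2) (z 0) - Φ (x 1) (y 0) (z 2) +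
    Φ (x 2) (y 0) (z 1) - Φ (x 2) (y 1) (z 0)

theorem D_mix (U : Matrix (Fin 3) (Fin 3) ℂ) (x y z : Fin 3 → V) :
    D Φ (mix U x) (mix U y) (mix U z) = U.det * D Φ x y z := by
  rw [Matrix.det_fin_three]
  simp only [D, mix, Fin.sum_univ_three, map_add, map_smul, LinearMap.add_apply,
    LinearMap.smul_apply, smul_eq_mul]
  ring

theorem mix_mul (U W : Matrix (Fin 3) (Fin 3) ℂ) (x : Fin 3 → V) :
    mix (U * W) x = mix U (mix W x) := by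
  funext i
  simp only [mix, Matrix.mul_apply, Finset.sum_smul, Finset.smul_sum, smul_smul]
  exact Finset.sum_comm

theorem sum_inner_mix {U : Matrix (Fin 3) (Fin 3) ℂ} (hU : U ∈ Matrix.unitaryGroup (Fin 3) ℂ)
    (x y : Fin 3 → V) : ∑ i, (inner ℂ (mix U x i) (mix U y i)) = ∑ i, (inner ℂ (x i) (y i)) := by
  have h1 : star U * U = 1 := Matrix.mem_unitaryGroup_iff'.1 hU
  have h2 : ∀ j k, ∑ i, conj (U i j) * U i k = if j = k then 1 else 0 := by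
    intro j k
    have := congrFun (congrFun h1 j) k
    rw [Matrix.mul_apply, Matrix.one_apply] at this
    simpa [Matrix.star_apply] using this
  have h3 : ∀ i, (inner ℂ (mix U x i) (mix U y i)) = ∑ j, ∑ k, (conj (U i j) * U i k) * (inner ℂ (x j) (y k)) := by
    intro i
    rw [mix, mix, sum_inner]
    refine Finset.sum_congr rfl fun j _ => ?_
    rw [inner_sum]
    refine Finset.sum_congr rfl fun k _ => ?_
    rw [inner_smul_left, inner_smul_right]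
    ring
  simp only [h3]
  rw [Finset.sum_comm]
  refine Finset.sum_congr rfl fun j _ => ?_
  rw [Finset.sum_comm]
  simp only [← Finset.sum_mul, h2]
  simp

theorem sum_norm_mix {U : Matrix (Fin 3) (Fin 3) ℂ} (hU : U ∈ Matrix.unitaryGroup (Fin 3) ℂ)
    (x : Fin 3 → V) : ∑ i, ‖mix U x i‖ ^ 2 = ∑ i, ‖x i‖ ^ 2 := by
  have h := sum_inner_mix hU x x
  simp only [inner_self_eq_norm_sq_to_K] at h
  exact_mod_cast h

theorem norm_det_unitary {U : Matrix (Fin 3) (Fin 3) ℂ} (hU : U ∈ Matrix.unitaryGroup (Fin 3) ℂ) :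
    ‖U.det‖ = 1 := by
  have h := Matrix.det_of_mem_unitary hU
  exact CStarRing.norm_of_mem_unitary h

theorem exists_rot (a b c d : ℂ) (l : ℝ) (h0 : 0 ≤ l) (h1 : l ≤ 1) :
    ∃ (C : ℝ) (s : ℂ), C ^ 2 + ‖s‖ ^ 2 = 1 ∧
      (C : ℂ) ^ 2 * a + C * s * b + C * conj s * c + (‖s‖ : ℂ) ^ 2 * d = l * a + (1 - l) * d := by
  by_cases hδ : a - d = 0
  · refine ⟨1, 0, by simp, ?_⟩
    have : a = d := sub_eq_zero.1 hδ
    rw [this]
    simp only [ofReal_one, norm_zero, ofReal_zero, map_zero]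
    ring
  rcases h0.eq_or_lt with hl | hl
  · refine ⟨0, 1, by simp, ?_⟩
    rw [← hl]
    simp
  -- a phase making `(b u + c conj u) conj δ` real
  obtain ⟨u, hu, ρ, hρ⟩ : ∃ u : ℂ, ‖u‖ = 1 ∧ ∃ ρ : ℝ, b * u + c * conj u = ρ * (a - d) := by
    set δ := a - d with hδd
    have hδn : (‖δ‖ : ℂ) ≠ 0 := by simpa using hδ
    obtain ⟨u, hu, hu2⟩ : ∃ u : ℂ, ‖u‖ = 1 ∧
        ((b * conj δ - conj (c * conj δ)) * u).im = 0 := by
      set q := b * conj δ - conj (c * conj δ)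
      obtain ⟨η, hη, hre⟩ := exists_phase_re_zero q
      refine ⟨I * η, by simp [hη], ?_⟩
      have : q * (I * η) = I * (η * q) := by ring
      rw [this, Complex.mul_im, hre]
      simp
    refine ⟨u, hu, ((b * u + c * conj u) * conj δ).re / ‖δ‖ ^ 2, ?_⟩
    have him : ((b * u + c * conj u) * conj δ).im = 0 := by
      have h3 : ((b * u + c * conj u) * conj δ).im = ((b * conj δ - conj (c * conj δ)) * u).im := by
        have h4 : (b * u + c * conj u) * conj δ = b * conj δ * u + conj (conj (c * conj δ) * u) := by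
          simp only [map_mul, Complex.conj_conj]
          ring
        rw [h4, Complex.add_im, Complex.conj_im, sub_mul, Complex.sub_im]
        ring
      rw [h3, hu2]
    have h5 : (b * u + c * conj u) * conj δ = (((b * u + c * conj u) * conj δ).re : ℂ) := by
      apply Complex.ext
      · simp
      · rw [him]; simp
    have h6 : δ * conj δ = (‖δ‖ : ℂ) ^ 2 := by
      rw [Complex.mul_conj, Complex.normSq_eq_norm_sq]
      push_cast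
      ring
    have h7 : conj δ ≠ 0 := by
      intro hh
      rw [hh, mul_zero] at h6
      exact pow_ne_zero 2 hδn h6.symm
    apply mul_right_cancel₀ h7
    rw [mul_assoc _ δ (conj δ), h6]
    push_cast
    rw [div_mul_cancel₀ _ (pow_ne_zero 2 hδn)]
    exact h5
  set t : ℝ := (ρ + √(ρ ^ 2 + 4 * l * (1 - l))) / (2 * l) with ht
  have hdisc : 0 ≤ ρ ^ 2 + 4 * l * (1 - l) := by
    have : 0 ≤ l * (1 - l) := mul_nonneg h0 (by linarith)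
    nlinarith [sq_nonneg ρ]
  have htq : l * t ^ 2 = ρ * t + (1 - l) := by
    have h2 : 2 * l * t - ρ = √(ρ ^ 2 + 4 * l * (1 - l)) := by
      rw [ht]; field_simp; ring
    have h3 : (2 * l * t - ρ) ^ 2 = ρ ^ 2 + 4 * l * (1 - l) := by rw [h2, Real.sq_sqrt hdisc]
    have h4 : 4 * l * (l * t ^ 2) = 4 * l * (ρ * t + (1 - l)) := by linear_combination h3
    exact mul_left_cancel₀ (by positivity) h4
  have hpos : 0 < 1 + t ^ 2 := by positivity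
  have hsq : 0 < √(1 + t ^ 2) := Real.sqrt_pos.2 hpos
  have hC2 : ((√(1 + t ^ 2))⁻¹) ^ 2 = (1 + t ^ 2)⁻¹ := by
    rw [inv_pow, Real.sq_sqrt hpos.le]
  refine ⟨(√(1 + t ^ 2))⁻¹, (((√(1 + t ^ 2))⁻¹ * t : ℝ) : ℂ) * u, ?_, ?_⟩
  · rw [norm_mul, hu, mul_one, Complex.norm_real, Real.norm_eq_abs, sq_abs, mul_pow, hC2]
    field_simp
  · have h2 : ((‖(((√(1 + t ^ 2))⁻¹ * t : ℝ) : ℂ) * u‖ : ℝ) : ℂ) ^ 2 =
        (((√(1 + t ^ 2))⁻¹ : ℝ) : ℂ) ^ 2 * (t : ℂ) ^ 2 := by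
      rw [norm_mul, hu, mul_one, Complex.norm_real, Real.norm_eq_abs, ← Complex.ofReal_pow, sq_abs]
      push_cast
      ring
    have hC2' : ((((√(1 + t ^ 2))⁻¹ : ℝ) : ℂ)) ^ 2 * (1 + (t : ℂ) ^ 2) = 1 := by
      have : ((√(1 + t ^ 2))⁻¹) ^ 2 * (1 + t ^ 2) = 1 := by
        rw [hC2, inv_mul_cancel₀ hpos.ne']
      exact_mod_cast this
    have htq' : (l : ℂ) * (t : ℂ) ^ 2 = ρ * t + (1 - l) := by exact_mod_cast htq
    rw [h2]
    simp only [map_mul, Complex.conj_ofReal]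
    set K : ℂ := (((√(1 + t ^ 2))⁻¹ : ℝ) : ℂ) with hK
    have hcast : ((((√(1 + t ^ 2))⁻¹ * t : ℝ)) : ℂ) = K * t := by rw [hK]; push_cast; ring
    rw [hcast]
    -- `K² (a + t ρ δ + t² d) = l a + (1 - l) d`
    have e1 : K ^ 2 * a + K * (K * t * u) * b + K * (K * t * conj u) * c + K ^ 2 * (t : ℂ) ^ 2 * d =
        K ^ 2 * (a + t * (b * u + c * conj u) + (t : ℂ) ^ 2 * d) := by ring
    rw [e1, hρ]
    have e2 : a + t * (ρ * (a - d)) + (t : ℂ) ^ 2 * d = (1 + (t : ℂ) ^ 2) * (l * a + (1 - l) * d) := by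
      linear_combination (d - a) * htq'
    rw [e2, ← mul_assoc, hC2', one_mul]

theorem step01 (x y : Fin 3 → V) (l : ℝ) (h0 : 0 ≤ l) (h1 : l ≤ 1) :
    ∃ U ∈ Matrix.unitaryGroup (Fin 3) ℂ,
      (inner ℂ (mix U x 0) (mix U y 0)) = l * (inner ℂ (x 0) (y 0)) + (1 - l) * (inner ℂ (x 1) (y 1)) ∧
      (inner ℂ (mix U x 2) (mix U y 2)) = (inner ℂ (x 2) (y 2)) := by
  obtain ⟨C, s, hCs, hval⟩ := exists_rot (inner ℂ (x 0) (y 0)) (inner ℂ (x 0) (y 1)) (inner ℂ (x 1) (y 0)) (inner ℂ (x 1) (y 1)) l h0 h1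
  have hss : s * conj s = (‖s‖ : ℂ) ^ 2 := by
    rw [Complex.mul_conj, Complex.normSq_eq_norm_sq]; push_cast; ring
  have hCs' : (C : ℂ) ^ 2 + (‖s‖ : ℂ) ^ 2 = 1 := by exact_mod_cast hCs
  refine ⟨!![(C : ℂ), s, 0; -conj s, C, 0; 0, 0, 1], ?_, ?_, ?_⟩
  · rw [Matrix.mem_unitaryGroup_iff]
    ext i j
    fin_cases i <;> fin_cases j <;>
      simp [Matrix.mul_apply, Fin.sum_univ_three, Matrix.star_apply] <;>
      first
      | linear_combination hCs' + hss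
      | ring
  · simp only [mix, Fin.sum_univ_three]
    simp [inner_add_left, inner_add_right, inner_smul_left, inner_smul_right]
    rw [← hval]
    linear_combination (inner ℂ (x 1) (y 1)) * hss
  · simp only [mix, Fin.sum_univ_three]
    simp

theorem step02 (x y : Fin 3 → V) (l : ℝ) (h0 : 0 ≤ l) (h1 : l ≤ 1) :
    ∃ U ∈ Matrix.unitaryGroup (Fin 3) ℂ,
      (inner ℂ (mix U x 0) (mix U y 0)) = l * (inner ℂ (x 0) (y 0)) + (1 - l) * (inner ℂ (x 2) (y 2)) ∧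
      (inner ℂ (mix U x 1) (mix U y 1)) = (inner ℂ (x 1) (y 1)) := by
  obtain ⟨C, s, hCs, hval⟩ := exists_rot (inner ℂ (x 0) (y 0)) (inner ℂ (x 0) (y 2)) (inner ℂ (x 2) (y 0)) (inner ℂ (x 2) (y 2)) l h0 h1
  have hss : s * conj s = (‖s‖ : ℂ) ^ 2 := by
    rw [Complex.mul_conj, Complex.normSq_eq_norm_sq]; push_cast; ring
  have hCs' : (C : ℂ) ^ 2 + (‖s‖ : ℂ) ^ 2 = 1 := by exact_mod_cast hCs
  refine ⟨!![(C : ℂ), 0, s; 0, 1, 0; -conj s, 0, C], ?_, ?_, ?_⟩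
  · rw [Matrix.mem_unitaryGroup_iff]
    ext i j
    fin_cases i <;> fin_cases j <;>
      simp [Matrix.mul_apply, Fin.sum_univ_three, Matrix.star_apply] <;>
      first
      | linear_combination hCs' + hss
      | ring
  · simp only [mix, Fin.sum_univ_three]
    simp [inner_add_left, inner_add_right, inner_smul_left, inner_smul_right]
    rw [← hval]
    linear_combination (inner ℂ (x 2) (y 2)) * hss
  · simp only [mix, Fin.sum_univ_three]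
    simp

theorem step12 (x y : Fin 3 → V) (l : ℝ) (h0 : 0 ≤ l) (h1 : l ≤ 1) :
    ∃ U ∈ Matrix.unitaryGroup (Fin 3) ℂ,
      (inner ℂ (mix U x 1) (mix U y 1)) = l * (inner ℂ (x 1) (y 1)) + (1 - l) * (inner ℂ (x 2) (y 2)) ∧
      (inner ℂ (mix U x 0) (mix U y 0)) = (inner ℂ (x 0) (y 0)) := by
  obtain ⟨C, s, hCs, hval⟩ := exists_rot (inner ℂ (x 1) (y 1)) (inner ℂ (x 1) (y 2)) (inner ℂ (x 2) (y 1)) (inner ℂ (x 2) (y 2)) l h0 h1
  have hss : s * conj s = (‖s‖ : ℂ) ^ 2 := by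
    rw [Complex.mul_conj, Complex.normSq_eq_norm_sq]; push_cast; ring
  have hCs' : (C : ℂ) ^ 2 + (‖s‖ : ℂ) ^ 2 = 1 := by exact_mod_cast hCs
  refine ⟨!![1, 0, 0; 0, (C : ℂ), s; 0, -conj s, C], ?_, ?_, ?_⟩
  · rw [Matrix.mem_unitaryGroup_iff]
    ext i j
    fin_cases i <;> fin_cases j <;>
      simp [Matrix.mul_apply, Fin.sum_univ_three, Matrix.star_apply] <;>
      first
      | linear_combination hCs' + hss
      | ring
  · simp only [mix, Fin.sum_univ_three]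
    simp [inner_add_left, inner_add_right, inner_smul_left, inner_smul_right]
    rw [← hval]
    linear_combination (inner ℂ (x 2) (y 2)) * hss
  · simp only [mix, Fin.sum_univ_three]
    simp

/-- zero-diagonal frame -/
theorem exists_frame (x y : Fin 3 → V) (h : ∑ i, (inner ℂ (x i) (y i)) = 0) :
    ∃ U ∈ Matrix.unitaryGroup (Fin 3) ℂ, ∀ i, (inner ℂ (mix U x i) (mix U y i)) = 0 := by
  obtain ⟨U₁, hU₁, a1, a2⟩ := step01 x y (1 / 2) (by norm_num) (by norm_num)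
  have a3 := sum_inner_mix hU₁ x y
  obtain ⟨U₂, hU₂, b1, b2⟩ := step02 (mix U₁ x) (mix U₁ y) (2 / 3) (by norm_num) (by norm_num)
  have b3 := sum_inner_mix hU₂ (mix U₁ x) (mix U₁ y)
  obtain ⟨U₃, hU₃, c1, c2⟩ := step12 (mix U₂ (mix U₁ x)) (mix U₂ (mix U₁ y)) (1 / 2)
    (by norm_num) (by norm_num)
  have c3 := sum_inner_mix hU₃ (mix U₂ (mix U₁ x)) (mix U₂ (mix U₁ y))
  rw [Fin.sum_univ_three] at h a3 b3 c3
  rw [Fin.sum_univ_three] at a3 b3 c3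
  refine ⟨U₃ * (U₂ * U₁), mul_mem hU₃ (mul_mem hU₂ hU₁), ?_⟩
  rw [mix_mul, mix_mul, mix_mul, mix_mul]
  push_cast at a1 b1 c1
  have z0 : (inner ℂ (mix U₃ (mix U₂ (mix U₁ x)) 0) (mix U₃ (mix U₂ (mix U₁ y)) 0)) = 0 := by
    rw [c2, b1, a1, a2]
    linear_combination (1 / 3 : ℂ) * h
  have z1 : (inner ℂ (mix U₃ (mix U₂ (mix U₁ x)) 1) (mix U₃ (mix U₂ (mix U₁ y)) 1)) = 0 := by
    rw [c1, b2]
    rw [a2, a1] at a3
    rw [b1, b2, a1, a2] at b3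
    linear_combination (1 / 2 : ℂ) * b3 + (1 / 2 : ℂ) * a3 + (1 / 3 : ℂ) * h
  have z2 : (inner ℂ (mix U₃ (mix U₂ (mix U₁ x)) 2) (mix U₃ (mix U₂ (mix U₁ y)) 2)) = 0 := by
    rw [z0, z1] at c3
    linear_combination c3 + b3 + a3 + h
  intro i
  fin_cases i
  · exact z0
  · exact z1
  · exact z2

/-- Theorem A in a zero-diagonal frame -/
theorem Sym.D_le_of_frame [FiniteDimensional ℂ V] (h : Sym Φ) (x y z : Fin 3 → V)
    (hxy : ∀ i, (inner ℂ (x i) (y i)) = 0) :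
    ‖D Φ x y z‖ ^ 2 ≤ (∑ i, ‖x i‖ ^ 2) * (∑ i, ‖y i‖ ^ 2) * (∑ i, ‖z i‖ ^ 2) := by
  have p01 := h.pair' (z 2) (x 0) (y 0) (x 1) (y 1) (hxy 0) (hxy 1)
  have p02 := h.pair' (z 1) (x 0) (y 0) (x 2) (y 2) (hxy 0) (hxy 2)
  have p12 := h.pair' (z 0) (x 1) (y 1) (x 2) (y 2) (hxy 1) (hxy 2)
  have rearr : ∀ a b c, Φ a b c = Φ c a b := fun a b c => by rw [h.s23 a b c, h.s12 a c b]
  have hD : ‖D Φ x y z‖ ≤ (‖Φ (z 2) (x 0) (y 1)‖ + ‖Φ (z 2) (x 1) (y 0)‖) +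
      (‖Φ (z 1) (x 0) (y 2)‖ + ‖Φ (z 1) (x 2) (y 0)‖) +
      (‖Φ (z 0) (x 1) (y 2)‖ + ‖Φ (z 0) (x 2) (y 1)‖) := by
    have e : D Φ x y z = (Φ (z 2) (x 0) (y 1) - Φ (z 2) (x 1) (y 0)) +
        (Φ (z 1) (x 2) (y 0) - Φ (z 1) (x 0) (y 2)) +
        (Φ (z 0) (x 1) (y 2) - Φ (z 0) (x 2) (y 1)) := by
      rw [D, rearr (x 0) (y 1), rearr (x 0) (y 2), rearr (x 1) (y 2), rearr (x 1) (y 0),
        rearr (x 2) (y 0), rearr (x 2) (y 1)]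
      ring
    rw [e]
    refine (norm_add₃_le).trans (add_le_add (add_le_add (norm_sub_le _ _) ?_) (norm_sub_le _ _))
    rw [add_comm]
    exact norm_sub_le _ _
  set r2 := √((‖x 0‖ * ‖y 1‖) ^ 2 + (‖x 0‖ * ‖y 1‖) * (‖x 1‖ * ‖y 0‖) + (‖x 1‖ * ‖y 0‖) ^ 2)
    with hr2
  set r1 := √((‖x 0‖ * ‖y 2‖) ^ 2 + (‖x 0‖ * ‖y 2‖) * (‖x 2‖ * ‖y 0‖) + (‖x 2‖ * ‖y 0‖) ^ 2)
    with hr1
  set r0 := √((‖x 1‖ * ‖y 2‖) ^ 2 + (‖x 1‖ * ‖y 2‖) * (‖x 2‖ * ‖y 1‖) + (‖x 2‖ * ‖y 1‖) ^ 2)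
    with hr0
  have s2 : r2 ^ 2 = (‖x 0‖ * ‖y 1‖) ^ 2 + (‖x 0‖ * ‖y 1‖) * (‖x 1‖ * ‖y 0‖) +
    (‖x 1‖ * ‖y 0‖) ^ 2 := Real.sq_sqrt (by positivity)
  have s1 : r1 ^ 2 = (‖x 0‖ * ‖y 2‖) ^ 2 + (‖x 0‖ * ‖y 2‖) * (‖x 2‖ * ‖y 0‖) +
    (‖x 2‖ * ‖y 0‖) ^ 2 := Real.sq_sqrt (by positivity)
  have s0 : r0 ^ 2 = (‖x 1‖ * ‖y 2‖) ^ 2 + (‖x 1‖ * ‖y 2‖) * (‖x 2‖ * ‖y 1‖) +
    (‖x 2‖ * ‖y 1‖) ^ 2 := Real.sq_sqrt (by positivity)
  have hD2 : ‖D Φ x y z‖ ≤ ‖z 2‖ * r2 + ‖z 1‖ * r1 + ‖z 0‖ * r0 := by linarith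
  have hD3 : ‖D Φ x y z‖ ^ 2 ≤ (‖z 2‖ * r2 + ‖z 1‖ * r1 + ‖z 0‖ * r0) ^ 2 :=
    pow_le_pow_left₀ (norm_nonneg _) hD2 2
  have hD4 : (‖z 2‖ * r2 + ‖z 1‖ * r1 + ‖z 0‖ * r0) ^ 2 ≤
      (‖z 0‖ ^ 2 + ‖z 1‖ ^ 2 + ‖z 2‖ ^ 2) * (r0 ^ 2 + r1 ^ 2 + r2 ^ 2) := by
    nlinarith [sq_nonneg (‖z 2‖ * r1 - ‖z 1‖ * r2), sq_nonneg (‖z 2‖ * r0 - ‖z 0‖ * r2),
      sq_nonneg (‖z 1‖ * r0 - ‖z 0‖ * r1)]
  have hD5 : r0 ^ 2 + r1 ^ 2 + r2 ^ 2 ≤
      (‖x 0‖ ^ 2 + ‖x 1‖ ^ 2 + ‖x 2‖ ^ 2) * (‖y 0‖ ^ 2 + ‖y 1‖ ^ 2 + ‖y 2‖ ^ 2) := by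
    rw [s0, s1, s2]
    nlinarith [sq_nonneg (‖x 0‖ * ‖y 0‖ - ‖x 1‖ * ‖y 1‖),
      sq_nonneg (‖x 0‖ * ‖y 0‖ - ‖x 2‖ * ‖y 2‖), sq_nonneg (‖x 1‖ * ‖y 1‖ - ‖x 2‖ * ‖y 2‖)]
  rw [Fin.sum_univ_three, Fin.sum_univ_three, Fin.sum_univ_three]
  calc _ ≤ _ := hD3
    _ ≤ _ := hD4
    _ ≤ (‖z 0‖ ^ 2 + ‖z 1‖ ^ 2 + ‖z 2‖ ^ 2) * ((‖x 0‖ ^ 2 + ‖x 1‖ ^ 2 + ‖x 2‖ ^ 2) *
        (‖y 0‖ ^ 2 + ‖y 1‖ ^ 2 + ‖y 2‖ ^ 2)) := mul_le_mul_of_nonneg_left hD5 (by positivity)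
    _ = _ := by ring

/-- Theorem A when `X ⊥ Y` -/
theorem Sym.D_le_of_orth [FiniteDimensional ℂ V] (h : Sym Φ) (x y z : Fin 3 → V)
    (hxy : ∑ i, (inner ℂ (x i) (y i)) = 0) :
    ‖D Φ x y z‖ ^ 2 ≤ (∑ i, ‖x i‖ ^ 2) * (∑ i, ‖y i‖ ^ 2) * (∑ i, ‖z i‖ ^ 2) := by
  obtain ⟨U, hU, hd⟩ := exists_frame x y hxy
  have := h.D_le_of_frame (mix U x) (mix U y) (mix U z) hd
  rwa [D_mix, norm_mul, norm_det_unitary hU, one_mul, sum_norm_mix hU, sum_norm_mix hU,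
    sum_norm_mix hU] at this

/-- **Theorem A.** -/
theorem Sym.D_le [FiniteDimensional ℂ V] (h : Sym Φ) (x y z : Fin 3 → V) :
    ‖D Φ x y z‖ ^ 2 ≤ (∑ i, ‖x i‖ ^ 2) * (∑ i, ‖y i‖ ^ 2) * (∑ i, ‖z i‖ ^ 2) := by
  by_cases hx : ∑ i, ‖x i‖ ^ 2 = 0
  · have hx0 : ∀ i, x i = 0 := by
      intro i
      have := (Finset.sum_eq_zero_iff_of_nonneg (fun i _ => by positivity)).1 hx i
        (Finset.mem_univ i)
      simpa using this
    have : D Φ x y z = 0 := by simp [D, hx0]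
    rw [this, norm_zero, zero_pow two_ne_zero]
    positivity
  set X : ℝ := ∑ i, ‖x i‖ ^ 2 with hX
  have hXpos : 0 < X := lt_of_le_of_ne (by positivity) (Ne.symm hx)
  have hXX : ∑ i, (inner ℂ (x i) (x i)) = (X : ℂ) := by
    simp only [inner_self_eq_norm_sq_to_K]
    rw [hX]
    push_cast
    rfl
  set l : ℂ := (∑ i, (inner ℂ (x i) (y i))) / X with hl
  have hlX : l * X = ∑ i, (inner ℂ (x i) (y i)) := by
    rw [hl, div_mul_cancel₀]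
    exact_mod_cast hXpos.ne'
  set y' : Fin 3 → V := fun i => y i - l • x i with hy'
  have ho : ∑ i, (inner ℂ (x i) (y' i)) = 0 := by
    simp only [hy', inner_sub_right, inner_smul_right, Finset.sum_sub_distrib, ← Finset.mul_sum]
    rw [hXX, hlX, sub_self]
  have hDy : D Φ x y' z = D Φ x y z := by
    simp only [D, hy', map_sub, map_smul, LinearMap.sub_apply, LinearMap.smul_apply, smul_eq_mul,
      h.s12 (x 1) (x 0), h.s12 (x 2) (x 0), h.s12 (x 2) (x 1)]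
    ring
  have hn : ∑ i, ‖y' i‖ ^ 2 ≤ ∑ i, ‖y i‖ ^ 2 := by
    have e : ∀ i, ‖y i‖ ^ 2 = ‖y' i‖ ^ 2 + 2 * (l * (inner ℂ (y' i) (x i))).re + ‖l‖ ^ 2 * ‖x i‖ ^ 2 := by
      intro i
      have e1 : y i = y' i + l • x i := by simp [hy']
      rw [e1, @norm_add_sq ℂ, inner_smul_right, norm_smul]
      simp only [hy', RCLike.re_eq_complex_re]
      ring
    have ho' : ∑ i, (inner ℂ (y' i) (x i)) = 0 := by
      have := congrArg conj ho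
      rw [map_sum, map_zero] at this
      rw [← this]
      exact Finset.sum_congr rfl fun i _ => (inner_conj_symm _ _).symm
    have e2 : ∑ i, ‖y i‖ ^ 2 = ∑ i, ‖y' i‖ ^ 2 + 2 * (l * ∑ i, (inner ℂ (y' i) (x i))).re +
        ‖l‖ ^ 2 * ∑ i, ‖x i‖ ^ 2 := by
      rw [Finset.mul_sum, Finset.mul_sum, Complex.re_sum, Finset.mul_sum,
        ← Finset.sum_add_distrib, ← Finset.sum_add_distrib]
      exact Finset.sum_congr rfl fun i _ => e i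
    rw [e2, ho', mul_zero, Complex.zero_re]
    nlinarith [sq_nonneg ‖l‖]
  have h1 := h.D_le_of_orth x y' z ho
  rw [hDy] at h1
  refine h1.trans ?_
  gcongr

end Pool.Agent.Helper54.T5
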