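import Pool.Agent.Helper46.T5.Defs
import Pool.Agent.Helper54.T5.TA

/-!
The maximum of the vertex polynomial of the `2 k` replicas: `‖TJ J x x x‖² ≤ (4/3)^k (∑ ‖x a‖²)³`.
-/

set_option autoImplicit false

namespace Pool.Agent.Helper54.T5

open Finset Complex Pool.Agent.Helper46.T5
open scoped ComplexConjugate

/-! ### algebra of the form -/

section alg

variable {R : Type} [CommRing R] {J : Type} [Fintype J] [DecidableEq J]

theorem eps_swap12 (a b c : Fin 3) : eps b a c = -eps a b c := by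
  fin_cases a <;> fin_cases b <;> fin_cases c <;> decide

theorem eps_swap23 (a b c : Fin 3) : eps a c b = -eps a b c := by
  fin_cases a <;> fin_cases b <;> fin_cases c <;> decide

theorem TJ_swap12 (h : Even (Fintype.card J)) (x y z : (J → Fin 3) → R) :
    TJ J x y z = TJ J y x z := by
  unfold TJ
  rw [Finset.sum_comm]
  refine sum_congr rfl fun b _ => sum_congr rfl fun a _ => sum_congr rfl fun c _ => ?_
  have : ∏ j, ((eps (a j) (b j) (c j) : ℤ) : R) = ∏ j, ((eps (b j) (a j) (c j) : ℤ) : R) := by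
    have h1 : ∀ j, ((eps (a j) (b j) (c j) : ℤ) : R) = -((eps (b j) (a j) (c j) : ℤ) : R) :=
      fun j => by rw [eps_swap12 (b j) (a j) (c j)]; push_cast; ring
    simp only [h1]
    rw [Finset.prod_neg, Finset.card_univ, h.neg_one_pow, one_mul]
  rw [this]
  ring

theorem TJ_swap23 (h : Even (Fintype.card J)) (x y z : (J → Fin 3) → R) :
    TJ J x y z = TJ J x z y := by
  unfold TJ
  refine sum_congr rfl fun a _ => ?_
  rw [Finset.sum_comm]
  refine sum_congr rfl fun c _ => sum_congr rfl fun b _ => ?_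
  have : ∏ j, ((eps (a j) (b j) (c j) : ℤ) : R) = ∏ j, ((eps (a j) (c j) (b j) : ℤ) : R) := by
    have h1 : ∀ j, ((eps (a j) (b j) (c j) : ℤ) : R) = -((eps (a j) (c j) (b j) : ℤ) : R) :=
      fun j => by rw [eps_swap23 (a j) (b j) (c j)]; push_cast; ring
    simp only [h1]
    rw [Finset.prod_neg, Finset.card_univ, h.neg_one_pow, one_mul]
  rw [this]
  ring

theorem TJ_equiv {J' : Type} [Fintype J'] [DecidableEq J'] (φ : J ≃ J')
    (x y z : (J → Fin 3) → R) :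
    TJ J x y z = TJ J' (fun a => x (a ∘ φ)) (fun a => y (a ∘ φ)) (fun a => z (a ∘ φ)) := by
  unfold TJ
  have key : ∀ F : (J → Fin 3) → R, ∑ a, F a = ∑ a : J' → Fin 3, F (a ∘ φ) := fun F =>
    (Equiv.sum_comp (Equiv.arrowCongr φ.symm (Equiv.refl (Fin 3))) F).symm
  rw [key]
  refine sum_congr rfl fun a _ => ?_
  rw [key]
  refine sum_congr rfl fun b _ => ?_
  rw [key]
  refine sum_congr rfl fun c _ => ?_
  congr 3
  exact Equiv.prod_comp φ (fun j => ((eps (a j) (b j) (c j) : ℤ) : R))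

/-- slices of a tensor -/
def sl {J₁ J₂ : Type} (x : (J₁ ⊕ J₂ → Fin 3) → R) (a : J₁ → Fin 3) : (J₂ → Fin 3) → R :=
  fun b => x (Sum.elim a b)

theorem sum_sum_elim {J₁ J₂ : Type} [Fintype J₁] [DecidableEq J₁] [Fintype J₂] [DecidableEq J₂]
    (F : (J₁ ⊕ J₂ → Fin 3) → R) :
    ∑ a, F a = ∑ a : J₁ → Fin 3, ∑ b : J₂ → Fin 3, F (Sum.elim a b) := by
  rw [← Fintype.sum_prod_type' (f := fun a b => F (Sum.elim a b))]
  exact (Equiv.sum_comp (Equiv.sumArrowEquivProdArrow J₁ J₂ (Fin 3)).symm F).symm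

theorem TJ_sum {J₁ J₂ : Type} [Fintype J₁] [DecidableEq J₁] [Fintype J₂] [DecidableEq J₂]
    (x y z : (J₁ ⊕ J₂ → Fin 3) → R) :
    TJ (J₁ ⊕ J₂) x y z = ∑ a : J₁ → Fin 3, ∑ b : J₁ → Fin 3, ∑ c : J₁ → Fin 3,
      (∏ j, ((eps (a j) (b j) (c j) : ℤ) : R)) * TJ J₂ (sl x a) (sl y b) (sl z c) := by
  unfold TJ
  rw [sum_sum_elim]
  refine sum_congr rfl fun a _ => ?_
  have h1 : ∀ a' : J₂ → Fin 3, (∑ b : J₁ ⊕ J₂ → Fin 3, ∑ c : J₁ ⊕ J₂ → Fin 3,
      (∏ j, ((eps (Sum.elim a a' j) (b j) (c j) : ℤ) : R)) * x (Sum.elim a a') * y b * z c) =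
      ∑ b : J₁ → Fin 3, ∑ c : J₁ → Fin 3, ∑ b' : J₂ → Fin 3, ∑ c' : J₂ → Fin 3,
        (∏ j, ((eps (a j) (b j) (c j) : ℤ) : R)) *
          ((∏ j, ((eps (a' j) (b' j) (c' j) : ℤ) : R)) * sl x a a' * sl y b b' * sl z c c') := by
    intro a'
    rw [sum_sum_elim]
    refine sum_congr rfl fun b _ => ?_
    have h2 : ∀ b' : J₂ → Fin 3, (∑ c : J₁ ⊕ J₂ → Fin 3,
        (∏ j, ((eps (Sum.elim a a' j) (Sum.elim b b' j) (c j) : ℤ) : R)) * x (Sum.elim a a') *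
          y (Sum.elim b b') * z c) =
        ∑ c : J₁ → Fin 3, ∑ c' : J₂ → Fin 3, (∏ j, ((eps (a j) (b j) (c j) : ℤ) : R)) *
          ((∏ j, ((eps (a' j) (b' j) (c' j) : ℤ) : R)) * sl x a a' * sl y b b' * sl z c c') := by
      intro b'
      rw [sum_sum_elim]
      refine sum_congr rfl fun c _ => sum_congr rfl fun c' _ => ?_
      rw [Fintype.prod_sum_type]
      simp only [Sum.elim_inl, Sum.elim_inr, sl]
      ring
    rw [sum_congr rfl fun b' _ => h2 b', Finset.sum_comm]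
  rw [sum_congr rfl fun a' _ => h1 a', Finset.sum_comm]
  refine sum_congr rfl fun b _ => ?_
  rw [Finset.sum_comm]
  refine sum_congr rfl fun c _ => ?_
  simp only [Finset.mul_sum]

/-- slice by one label -/
def s1 {J₂ : Type} (x : (Unit ⊕ J₂ → Fin 3) → R) (i : Fin 3) : (J₂ → Fin 3) → R :=
  sl x (fun _ => i)

theorem TJ_unit {J₂ : Type} [Fintype J₂] [DecidableEq J₂]
    (x y z : (Unit ⊕ J₂ → Fin 3) → R) :
    TJ (Unit ⊕ J₂) x y z = ∑ i : Fin 3, ∑ j : Fin 3, ∑ k : Fin 3,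
      ((eps i j k : ℤ) : R) * TJ J₂ (s1 x i) (s1 y j) (s1 z k) := by
  rw [TJ_sum]
  have key : ∀ F : (Unit → Fin 3) → R, ∑ a, F a = ∑ i : Fin 3, F (fun _ => i) := fun F =>
    (Equiv.sum_comp (Equiv.funUnique Unit (Fin 3)).symm F).symm
  rw [key]
  refine sum_congr rfl fun i _ => ?_
  rw [key]
  refine sum_congr rfl fun j _ => ?_
  rw [key]
  refine sum_congr rfl fun k _ => ?_
  simp [s1]

theorem eps_sum (G : Fin 3 → Fin 3 → Fin 3 → R) :
    ∑ i : Fin 3, ∑ j : Fin 3, ∑ k : Fin 3, ((eps i j k : ℤ) : R) * G i j k =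
      G 0 1 2 - G 0 2 1 + G 1 2 0 - G 1 0 2 + G 2 0 1 - G 2 1 0 := by
  simp [Fin.sum_univ_three, eps]
  ring

/-- the matrix of slices by two labels -/
def s2 {J₂ : Type} (x : (Unit ⊕ (Unit ⊕ J₂) → Fin 3) → R) (i j : Fin 3) : (J₂ → Fin 3) → R :=
  s1 (s1 x i) j

theorem TJ_two {J₂ : Type} [Fintype J₂] [DecidableEq J₂] (hJ : Even (Fintype.card J₂))
    (x : (Unit ⊕ (Unit ⊕ J₂) → Fin 3) → R) :
    TJ (Unit ⊕ (Unit ⊕ J₂)) x x x = 6 *
      (TJ J₂ (s2 x 0 0) (s2 x 1 1) (s2 x 2 2) - TJ J₂ (s2 x 0 0) (s2 x 1 2) (s2 x 2 1) +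
        TJ J₂ (s2 x 0 1) (s2 x 1 2) (s2 x 2 0) - TJ J₂ (s2 x 0 1) (s2 x 1 0) (s2 x 2 2) +
        TJ J₂ (s2 x 0 2) (s2 x 1 0) (s2 x 2 1) - TJ J₂ (s2 x 0 2) (s2 x 1 1) (s2 x 2 0)) := by
  have h12 := fun u v w : (J₂ → Fin 3) → R => TJ_swap12 hJ u v w
  have h23 := fun u v w : (J₂ → Fin 3) → R => TJ_swap23 hJ u v w
  rw [TJ_unit]
  simp only [TJ_unit (J₂ := J₂)]
  rw [eps_sum]
  simp only [eps_sum]
  change _ = _
  have e1 : ∀ i j, s1 (s1 x i) j = s2 x i j := fun _ _ => rfl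
  simp only [e1]
  -- bring every term to the order of first labels `0, 1, 2`
  have r021 : ∀ a b c, TJ J₂ (s2 x 0 a) (s2 x 2 b) (s2 x 1 c) =
    TJ J₂ (s2 x 0 a) (s2 x 1 c) (s2 x 2 b) := fun a b c => h23 _ _ _
  have r102 : ∀ a b c, TJ J₂ (s2 x 1 a) (s2 x 0 b) (s2 x 2 c) =
    TJ J₂ (s2 x 0 b) (s2 x 1 a) (s2 x 2 c) := fun a b c => h12 _ _ _
  have r120 : ∀ a b c, TJ J₂ (s2 x 1 a) (s2 x 2 b) (s2 x 0 c) =
    TJ J₂ (s2 x 0 c) (s2 x 1 a) (s2 x 2 b) := fun a b c => by rw [h23, h12]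
  have r201 : ∀ a b c, TJ J₂ (s2 x 2 a) (s2 x 0 b) (s2 x 1 c) =
    TJ J₂ (s2 x 0 b) (s2 x 1 c) (s2 x 2 a) := fun a b c => by rw [h12, h23]
  have r210 : ∀ a b c, TJ J₂ (s2 x 2 a) (s2 x 1 b) (s2 x 0 c) =
    TJ J₂ (s2 x 0 c) (s2 x 1 b) (s2 x 2 a) := fun a b c => by rw [h12, h23, h12]
  simp only [r021, r102, r120, r201, r210]
  ring

end alg

/-! ### linearity -/

section lin

variable {R : Type} [CommRing R] {J : Type} [Fintype J] [DecidableEq J]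

theorem TJ_add1 (x x' y z : (J → Fin 3) → R) : TJ J (x + x') y z = TJ J x y z + TJ J x' y z := by
  simp only [TJ, ← sum_add_distrib]
  refine sum_congr rfl fun a _ => sum_congr rfl fun b _ => sum_congr rfl fun c _ => ?_
  simp only [Pi.add_apply]; ring

theorem TJ_add2 (x y y' z : (J → Fin 3) → R) : TJ J x (y + y') z = TJ J x y z + TJ J x y' z := by
  simp only [TJ, ← sum_add_distrib]
  refine sum_congr rfl fun a _ => sum_congr rfl fun b _ => sum_congr rfl fun c _ => ?_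
  simp only [Pi.add_apply]; ring

theorem TJ_add3 (x y z z' : (J → Fin 3) → R) : TJ J x y (z + z') = TJ J x y z + TJ J x y z' := by
  simp only [TJ, ← sum_add_distrib]
  refine sum_congr rfl fun a _ => sum_congr rfl fun b _ => sum_congr rfl fun c _ => ?_
  simp only [Pi.add_apply]; ring

theorem TJ_smul1 (t : R) (x y z : (J → Fin 3) → R) : TJ J (t • x) y z = t * TJ J x y z := by
  simp only [TJ, mul_sum]
  refine sum_congr rfl fun a _ => sum_congr rfl fun b _ => sum_congr rfl fun c _ => ?_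
  simp only [Pi.smul_apply, smul_eq_mul]; ring

theorem TJ_smul2 (t : R) (x y z : (J → Fin 3) → R) : TJ J x (t • y) z = t * TJ J x y z := by
  simp only [TJ, mul_sum]
  refine sum_congr rfl fun a _ => sum_congr rfl fun b _ => sum_congr rfl fun c _ => ?_
  simp only [Pi.smul_apply, smul_eq_mul]; ring

theorem TJ_smul3 (t : R) (x y z : (J → Fin 3) → R) : TJ J x y (t • z) = t * TJ J x y z := by
  simp only [TJ, mul_sum]
  refine sum_congr rfl fun a _ => sum_congr rfl fun b _ => sum_congr rfl fun c _ => ?_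
  simp only [Pi.smul_apply, smul_eq_mul]; ring

end lin

/-- the space of complex tensors -/
abbrev VJ (J : Type) [Fintype J] [DecidableEq J] : Type := EuclideanSpace ℂ (J → Fin 3)

/-- the form as a trilinear map, divided by the real number `c` -/
noncomputable def TL (J : Type) [Fintype J] [DecidableEq J] (c : ℝ) :
    VJ J →ₗ[ℂ] VJ J →ₗ[ℂ] VJ J →ₗ[ℂ] ℂ :=
  { toFun := fun x => LinearMap.mk₂ ℂ (fun y z => (c : ℂ)⁻¹ * TJ J x.ofLp y.ofLp z.ofLp)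
      (fun y y' z => by simp [TJ_add2, mul_add]) (fun t y z => by simp [TJ_smul2]; ring)
      (fun y z z' => by simp [TJ_add3, mul_add]) (fun t y z => by simp [TJ_smul3]; ring)
    map_add' := fun x x' => by
      ext y z
      simp [TJ_add1, mul_add]
    map_smul' := fun t x => by
      ext y z
      simp [TJ_smul1]
      ring }

theorem TL_apply (J : Type) [Fintype J] [DecidableEq J] (c : ℝ) (x y z : VJ J) :
    TL J c x y z = (c : ℂ)⁻¹ * TJ J x.ofLp y.ofLp z.ofLp := rfl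

theorem amgm3 {a b c : ℝ} (ha : 0 ≤ a) (hb : 0 ≤ b) (hc : 0 ≤ c) :
    27 * (a * b * c) ≤ (a + b + c) ^ 3 := by
  nlinarith [mul_nonneg ha (sq_nonneg (b - c)), mul_nonneg hb (sq_nonneg (c - a)),
    mul_nonneg hc (sq_nonneg (a - b)), mul_nonneg ha (sq_nonneg (a - b)),
    mul_nonneg ha (sq_nonneg (a - c)), mul_nonneg hb (sq_nonneg (b - c)),
    mul_nonneg hb (sq_nonneg (b - a)), mul_nonneg hc (sq_nonneg (c - a)),
    mul_nonneg hc (sq_nonneg (c - b))]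

theorem sum_slices {J₂ : Type} [Fintype J₂] [DecidableEq J₂] {R' : Type} [AddCommMonoid R']
    {R : Type} (f : R → R') (x : (Unit ⊕ (Unit ⊕ J₂) → Fin 3) → R) :
    ∑ a, f (x a) = ∑ i : Fin 3, ∑ j : Fin 3, ∑ b : J₂ → Fin 3, f (s2 x i j b) := by
  have key : ∀ {J : Type} [Fintype J] [DecidableEq J] (F : (Unit ⊕ J → Fin 3) → R'),
      ∑ a, F a = ∑ i : Fin 3, ∑ b : J → Fin 3, F (Sum.elim (fun _ => i) b) := by
    intro J _ _ F
    have h1 : ∑ a, F a = ∑ p : (Unit → Fin 3) × (J → Fin 3), F (Sum.elim p.1 p.2) :=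
      (Equiv.sum_comp (Equiv.sumArrowEquivProdArrow Unit J (Fin 3)).symm F).symm
    rw [h1, Fintype.sum_prod_type]
    exact (Equiv.sum_comp (Equiv.funUnique Unit (Fin 3)).symm
      (fun a => ∑ b : J → Fin 3, F (Sum.elim a b))).symm
  rw [key]
  refine sum_congr rfl fun i _ => ?_
  rw [key]
  rfl

theorem D_TL {J : Type} [Fintype J] [DecidableEq J] (c : ℝ) (m : Fin 3 → Fin 3 → VJ J) :
    D (TL J c) (m 0) (m 1) (m 2) = (c : ℂ)⁻¹ *
      (TJ J (m 0 0).ofLp (m 1 1).ofLp (m 2 2).ofLp - TJ J (m 0 0).ofLp (m 1 2).ofLp (m 2 1).ofLp +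
        TJ J (m 0 1).ofLp (m 1 2).ofLp (m 2 0).ofLp - TJ J (m 0 1).ofLp (m 1 0).ofLp (m 2 2).ofLp +
        TJ J (m 0 2).ofLp (m 1 0).ofLp (m 2 1).ofLp - TJ J (m 0 2).ofLp (m 1 1).ofLp (m 2 0).ofLp) := by
  simp only [D, TL_apply]
  ring

theorem sym_TL {J : Type} [Fintype J] [DecidableEq J] {k : ℕ} (hJ : Fintype.card J = 2 * k)
    (h : ∀ x : (J → Fin 3) → ℂ, ‖TJ J x x x‖ ^ 2 ≤ (4 / 3) ^ k * (∑ a, ‖x a‖ ^ 2) ^ 3) :
    Sym (TL J (qq ^ k)) := by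
  have he : Even (Fintype.card J) := ⟨k, by omega⟩
  have hq : qq ^ 2 = 4 / 3 := by
    rw [qq, div_pow, Real.sq_sqrt (by norm_num)]; norm_num
  have hq0 : 0 < qq := by rw [qq]; positivity
  refine ⟨fun x y z => ?_, fun x y z => ?_, fun x => ?_⟩
  · rw [TL_apply, TL_apply, TJ_swap12 he]
  · rw [TL_apply, TL_apply, TJ_swap23 he]
  · have h1 := h x.ofLp
    have h2 : ∑ a, ‖x.ofLp a‖ ^ 2 = ‖x‖ ^ 2 := (EuclideanSpace.norm_sq_eq x).symm
    rw [h2, ← hq] at h1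
    have h3 : ‖TJ J x.ofLp x.ofLp x.ofLp‖ ≤ qq ^ k * ‖x‖ ^ 3 := by
      refine (sq_le_sq₀ (norm_nonneg _) (by positivity)).1 (h1.trans (le_of_eq ?_))
      ring
    rw [TL_apply, norm_mul, norm_inv, Complex.norm_real, Real.norm_eq_abs,
      abs_of_pos (by positivity), inv_mul_le_iff₀ (by positivity)]
    exact h3

theorem norm_TJ_sq_le (k : ℕ) : ∀ (J : Type) [Fintype J] [DecidableEq J],
    Fintype.card J = 2 * k → ∀ x : (J → Fin 3) → ℂ,
      ‖TJ J x x x‖ ^ 2 ≤ (4 / 3) ^ k * (∑ a, ‖x a‖ ^ 2) ^ 3 := by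
  induction k with
  | zero =>
    intro J _ _ hJ x
    have hE : IsEmpty J := Fintype.card_eq_zero_iff.1 hJ
    have hd : ∀ F : (J → Fin 3) → ℂ, ∑ a, F a = F (fun _ => 0) := fun F =>
      Fintype.sum_eq_single (fun _ => 0) (fun b hb => absurd (Subsingleton.elim b _) hb)
    have h1 : TJ J x x x = x (fun _ => 0) * x (fun _ => 0) * x (fun _ => 0) := by
      rw [TJ, hd, hd, hd, Finset.prod_of_isEmpty, one_mul]
    have h2 : ∑ a, ‖x a‖ ^ 2 = ‖x (fun _ => 0)‖ ^ 2 :=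
      Fintype.sum_eq_single (fun _ => 0) (fun b hb => absurd (Subsingleton.elim b _) hb)
    rw [h1, h2, pow_zero, one_mul, norm_mul, norm_mul]
    apply le_of_eq
    ring
  | succ k ih =>
    intro J _ _ hJ x
    have φ : J ≃ Unit ⊕ (Unit ⊕ Fin (2 * k)) := Fintype.equivOfCardEq (by
      rw [hJ]; simp; omega)
    have hc : Fintype.card (Fin (2 * k)) = 2 * k := Fintype.card_fin _
    have he : Even (Fintype.card (Fin (2 * k))) := ⟨k, by omega⟩
    have hsum : ∑ a, ‖x a‖ ^ 2 = ∑ a : Unit ⊕ (Unit ⊕ Fin (2 * k)) → Fin 3, ‖x (a ∘ φ)‖ ^ 2 :=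
      (Equiv.sum_comp (Equiv.arrowCongr φ.symm (Equiv.refl (Fin 3))) (fun a => ‖x a‖ ^ 2)).symm
    rw [TJ_equiv φ, hsum]
    set y : (Unit ⊕ (Unit ⊕ Fin (2 * k)) → Fin 3) → ℂ := fun a => x (a ∘ φ) with hy
    have hS := sym_TL hc (ih (Fin (2 * k)) hc)
    set m : Fin 3 → Fin 3 → VJ (Fin (2 * k)) := fun i j => WithLp.toLp 2 (s2 y i j) with hm
    have hA := hS.D_le (m 0) (m 1) (m 2)
    have hq : qq ^ 2 = 4 / 3 := by
      rw [qq, div_pow, Real.sq_sqrt (by norm_num)]; norm_num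
    have hq0 : 0 < qq := by rw [qq]; positivity
    have hT : TJ _ y y y = 6 * ((qq ^ k : ℝ) : ℂ) * D (TL (Fin (2 * k)) (qq ^ k)) (m 0) (m 1) (m 2) := by
      rw [D_TL, TJ_two he]
      have h0 : ((qq ^ k : ℝ) : ℂ) ≠ 0 := by
        exact_mod_cast (pow_pos hq0 k).ne'
      rw [← mul_assoc, mul_assoc 6, mul_inv_cancel₀ h0, mul_one]
    have hN : ‖TJ _ y y y‖ ^ 2 = 36 * (4 / 3) ^ k * ‖D (TL (Fin (2 * k)) (qq ^ k)) (m 0) (m 1) (m 2)‖ ^ 2 := by
      rw [hT, norm_mul, norm_mul, Complex.norm_real, Real.norm_eq_abs, abs_of_pos (by positivity),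
        mul_pow, mul_pow, ← pow_mul, mul_comm k 2, pow_mul, hq]
      simp only [Complex.norm_ofNat]
      norm_num
    have hsum2 : ∑ a, ‖y a‖ ^ 2 = ∑ i : Fin 3, ∑ j : Fin 3, ‖m i j‖ ^ 2 := by
      rw [sum_slices (fun t : ℂ => ‖t‖ ^ 2) y]
      refine sum_congr rfl fun i _ => sum_congr rfl fun j _ => ?_
      rw [EuclideanSpace.norm_sq_eq]
    rw [hN]
    change _ ≤ (4 / 3) ^ (k + 1) * (∑ a, ‖y a‖ ^ 2) ^ 3
    rw [hsum2, Fin.sum_univ_three]
    set A := ∑ j : Fin 3, ‖m 0 j‖ ^ 2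
    set B := ∑ j : Fin 3, ‖m 1 j‖ ^ 2
    set C := ∑ j : Fin 3, ‖m 2 j‖ ^ 2
    have hA0 : 0 ≤ A := by positivity
    have hB0 : 0 ≤ B := by positivity
    have hC0 : 0 ≤ C := by positivity
    have h27 := amgm3 hA0 hB0 hC0
    have hpk : (0 : ℝ) < (4 / 3) ^ k := by positivity
    calc _ ≤ 36 * (4 / 3) ^ k * (A * B * C) := by gcongr
      _ = (4 / 3) ^ (k + 1) * (27 * (A * B * C)) := by ring
      _ ≤ _ := by gcongr

theorem qq_sq : qq ^ 2 = 4 / 3 := by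
  rw [qq, div_pow, Real.sq_sqrt (by norm_num)]; norm_num

theorem qq_pos : 0 < qq := by rw [qq]; positivity

/-- **PMAX**, complex tensors -/
theorem norm_TJ_le (k : ℕ) (J : Type) [Fintype J] [DecidableEq J]
    (hJ : Fintype.card J = 2 * k) (x : (J → Fin 3) → ℂ) :
    ‖TJ J x x x‖ ≤ qq ^ k * (∑ a, ‖x a‖ ^ 2) ^ ((3 : ℝ) / 2) := by
  have h := norm_TJ_sq_le k J hJ x
  have h0 : 0 ≤ ∑ a, ‖x a‖ ^ 2 := by positivity
  have hq0 := qq_pos
  refine (sq_le_sq₀ (norm_nonneg _) (by positivity)).1 (h.trans (le_of_eq ?_))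
  have h1 : ((∑ a, ‖x a‖ ^ 2) ^ ((3 : ℝ) / 2)) ^ 2 = (∑ a, ‖x a‖ ^ 2) ^ 3 := by
    rw [← Real.rpow_natCast, ← Real.rpow_mul h0, ← Real.rpow_natCast]
    norm_num
  rw [mul_pow, h1, ← pow_mul, mul_comm k 2, pow_mul, qq_sq]

open Pool.Agent.Helper15.T4 in
/-- **PMAX**, real tensors -/
theorem TJ_real_sq_le (k : ℕ) (J : Type) [Fintype J] [DecidableEq J]
    (hJ : Fintype.card J = 2 * k) (x : (J → Fin 3) → ℝ) :
    (TJ J x x x) ^ 2 ≤ (4 / 3) ^ k * (nsq x) ^ 3 := by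
  have h := norm_TJ_sq_le k J hJ (fun a => (x a : ℂ))
  have h1 : TJ J (fun a => (x a : ℂ)) (fun a => (x a : ℂ)) (fun a => (x a : ℂ)) =
      ((TJ J x x x : ℝ) : ℂ) := by
    simp only [TJ]
    push_cast
    rfl
  rw [h1] at h
  simpa only [Complex.norm_real, Real.norm_eq_abs, sq_abs, nsq] using h

end Pool.Agent.Helper54.T5
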