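import Pool.Agent.Helper46.T5.Stmts
import Pool.Agent.Helper54.T5.PMAX

set_option autoImplicit false

/-!
Modules PMAX and PMAXR of the T5 plan.
-/

namespace Pool.Agent.Helper54.T5

open Finset Complex Pool.Agent.Helper46.T5

theorem st_PMAX : ST_PMAX := by
  intro J _ _ k hJ x
  have h := norm_TJ_sq_le k J hJ x
  rwa [← qq_sq, ← pow_mul, mul_comm 2 k, pow_mul] at h

theorem st_PMAXR : ST_PMAXR := by
  intro J _ _ k hJ x
  have h := TJ_real_sq_le k J hJ x
  rwa [← qq_sq, ← pow_mul, mul_comm 2 k, pow_mul] at h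

theorem st_PERMT : ST_PERMT := by
  intro R _ J J' _ _ _ _ e x y z
  exact (TJ_equiv e x y z).symm

end Pool.Agent.Helper54.T5
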